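import Pool.Agent.N236.RT.Par

/-!
# Project RT: the rank two bound from its parts
-/

set_option autoImplicit false

namespace Pool.Agent.N236.RT

open MvPolynomial Module

section basic

set_option linter.unusedSectionVars false

variable {K : Type} [Field K] [NumberField K]

lemma log_max_pow (z : ℂ) (n : ℕ) : Real.log (max 1 ‖z ^ n‖) = n * Real.log (max 1 ‖z‖) := by
  rw [← Real.log_pow]
  congr 1
  rw [norm_pow]
  rcases le_total ‖z‖ 1 with h | h
  · rw [max_eq_left h, max_eq_left (pow_le_one₀ (norm_nonneg _) h), one_pow]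
  · rw [max_eq_right h, max_eq_right (one_le_pow₀ h)]

lemma lam_pow (x : K) (n : ℕ) : lam (x ^ n) = n * lam x := by
  unfold lam
  rw [Finset.mul_sum]
  refine Finset.sum_congr rfl fun σ _ => ?_
  rw [map_pow, log_max_pow]

lemma lam_nonneg (x : K) : 0 ≤ lam x :=
  Finset.sum_nonneg fun _ _ => Real.log_nonneg (le_max_left _ _)

lemma Unt.pow {x : K} (h : Unt x) (n : ℕ) : Unt (x ^ n) :=
  ⟨pow_ne_zero _ h.1, h.2.1.pow n, by rw [← inv_pow]; exact h.2.2.pow n⟩

lemma Ind.pow {x y : K} (h : Ind x y) {n : ℕ} (hn : 0 < n) : Ind (x ^ n) (y ^ n) := by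
  intro r s hrs
  have h1 := h (n * r) (n * s) (by rw [zpow_mul, zpow_mul, zpow_natCast, zpow_natCast]; exact hrs)
  have hn' : (n : ℤ) ≠ 0 := by exact_mod_cast hn.ne'
  exact ⟨(mul_eq_zero.mp h1.1).resolve_left hn', (mul_eq_zero.mp h1.2).resolve_left hn'⟩

lemma Ind.not_torsion {x y : K} (h : Ind x y) (n : ℕ) (hn : 0 < n) : x ^ n ≠ 1 := by
  intro h1
  have h2 := h n 0 (by rw [zpow_natCast, h1, zpow_zero, one_mul])
  have : (n : ℤ) = 0 := h2.1
  omega

end basic

lemma Lam_mono {κ : ℝ} (hκ : 0 < κ) (A B T : ℕ) {h h' : ℝ} (hh : h ≤ h') :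
    Lam κ A B T h ≤ Lam κ A B T h' := by
  unfold Lam
  have : 2 * κ * h ≤ 2 * κ * h' := by
    apply mul_le_mul_of_nonneg_left hh; positivity
  linarith

lemma col_of_degreeOf {F : Pol ℚ} (i : Fin 2) (h : F.degreeOf i = 0) : Col F := by
  have hm : ∀ m ∈ F.support, m i = 0 := fun m hm =>
    Nat.le_zero.mp (h ▸ MvPolynomial.monomial_le_degreeOf i hm)
  fin_cases i
  · refine ⟨1, 0, 0, by simp, fun m hm' => ?_⟩
    have := hm m hm'
    simp only [Fin.zero_eta, Fin.isValue] at this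
    simp [this]
  · refine ⟨0, 1, 0, by simp, fun m hm' => ?_⟩
    have := hm m hm'
    simp only [Fin.mk_one, Fin.isValue] at this
    simp [this]

lemma bd_degreeOf (F : Pol ℚ) : Bd (F.degreeOf 0) (F.degreeOf 1) F := fun _ hm =>
  ⟨MvPolynomial.monomial_le_degreeOf 0 hm, MvPolynomial.monomial_le_degreeOf 1 hm⟩

/-- Large degree. -/
theorem ad_large (hST1 : S_ST1) (hST2 : S_ST2) (hPR : S_PR) (hBAD : S_BAD) (hEND : S_END)
    (hPAR : S_PAR) (ε : ℝ) (hε : 0 < ε) (hε2 : ε < 1 / 2) :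
    ∃ N₀ : ℕ, ∀ (K : Type) [Field K] [NumberField K] (x y : K), Unt x → Unt y → Ind x y →
      Gen x y → N₀ ≤ finrank ℚ K → (finrank ℚ K : ℝ) ^ (1 / 2 - ε) < max (lam x) (lam y) := by
  classical
  obtain ⟨n₀, hn₀⟩ := hPR
  obtain ⟨c, hc, hend⟩ := hEND
  obtain ⟨N₀, hN₀⟩ := hPAR ε c n₀ hε hε2 hc
  refine ⟨N₀, ?_⟩
  intro K _ _ x y hx hy hxy hg hN
  by_contra hcon
  push Not at hcon
  set N := finrank ℚ K with hNdef
  set X := max (lam x) (lam y) with hX
  have hNpos : 0 < N := finrank_pos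
  have hNR : (0 : ℝ) < N := by exact_mod_cast hNpos
  have hX0 : 0 ≤ X := (lam_nonneg x).trans (le_max_left _ _)
  have hxX : lam x ≤ X := le_max_left _ _
  have hyX : lam y ≤ X := le_max_right _ _
  obtain ⟨Q, T, t, L, κ, hκ, hκ2, ht, htT, hL, hnQ, hQ1, h1, h2, h3, h4, h5, h6, h7⟩ :=
    hN₀ N hN X hX0 hcon
  set I := (Finset.Ioc Q (4 * Q)).filter Nat.Prime with hI
  set J₀ := (Finset.Ioc (Q ^ 3) (4 * Q ^ 3)).filter Nat.Prime with hJ₀
  set J := J₀.filter (fun p => Gen (x ^ p) (y ^ p)) with hJ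
  have hIm : ∀ i ∈ I, i.Prime ∧ Q < i ∧ i ≤ 4 * Q := by
    intro i hi
    rw [hI, Finset.mem_filter, Finset.mem_Ioc] at hi
    exact ⟨hi.2, hi.1.1, hi.1.2⟩
  have hJm : ∀ p ∈ J, p.Prime ∧ Q ^ 3 < p ∧ p ≤ 4 * Q ^ 3 ∧ Gen (x ^ p) (y ^ p) := by
    intro p hp
    rw [hJ, hJ₀, Finset.mem_filter, Finset.mem_filter, Finset.mem_Ioc] at hp
    exact ⟨hp.1.2, hp.1.1.1, hp.1.1.2, hp.2⟩
  have hIc : Q ≤ I.card ^ 2 := hn₀ Q hnQ
  have hQ3 : n₀ ≤ Q ^ 3 := hnQ.trans (Nat.le_self_pow (by norm_num) Q)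
  have hJ₀c : Q ^ 3 ≤ J₀.card ^ 2 := hn₀ _ hQ3
  have hbad : (J₀.filter (fun p => ¬ Gen (x ^ p) (y ^ p))).card ≤ Nat.log 2 N := by
    have h := hBAD K x y hx.1 hy.1 hg (J₀.filter (fun p => ¬ Gen (x ^ p) (y ^ p))) (by
      intro p hp
      rw [Finset.mem_filter] at hp
      refine ⟨?_, hp.2⟩
      have := hp.1
      rw [hJ₀, Finset.mem_filter] at this
      exact this.2)
    exact Nat.le_log_of_pow_le (by norm_num) h
  have hJc : Q ^ 3 ≤ (J.card + Nat.log 2 N) ^ 2 := by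
    refine hJ₀c.trans (Nat.pow_le_pow_left ?_ 2)
    have h := Finset.card_filter_add_card_filter_not (s := J₀) (fun p => Gen (x ^ p) (y ^ p))
    rw [← hJ] at h
    omega
  obtain ⟨hJ1, h4'⟩ := h4 J.card hJc
  have hJne : J.Nonempty := Finset.card_pos.mp hJ1
  have hI4 : 4 * L ^ 3 < 2 ^ I.card := h5 _ hIc
  have hL0 : (0 : ℝ) ≤ L := Nat.cast_nonneg L
  have hsum : lam x + lam y ≤ 2 * X := by linarith
  -- the first stage
  obtain ⟨p, hp, F, hF, hFcol, hFev, i, hi, hi0, hi1⟩ := hST1 K x y T t L κ I J hx hy hxy hg hκ hκ2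
    ht htT hL hJne (fun i hi => (hIm i hi).1) (fun p hp => (hJm p hp).1)
    (fun p hp => (hJm p hp).2.2.2) h1
    (by
      intro i hi
      obtain ⟨_, hi1, hi2⟩ := hIm i hi
      refine lt_of_le_of_lt ?_ (h2 i hi1 hi2)
      have e1 : L * (lam x + lam y) / (N : ℝ) ≤ L * (2 * X) / N := by gcongr
      have e2 : i * L * (lam x + lam y) / (N : ℝ) ≤ i * L * (2 * X) / N := by gcongr
      have e3 := Lam_mono hκ L L T e1
      linarith)
    (by
      intro i hi p hp
      obtain ⟨_, hi1, hi2⟩ := hIm i hi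
      obtain ⟨_, hp1, hp2, _⟩ := hJm p hp
      refine lt_of_le_of_lt ?_ (h3 i hi1 hi2 p hp1 hp2)
      have e1 : L * (lam x + lam y) / (N : ℝ) ≤ L * (2 * X) / N := by gcongr
      have e2 : p * i * L * (lam x + lam y) / (N : ℝ) ≤ p * i * L * (2 * X) / N := by gcongr
      have e3 := Lam_mono hκ L L T e1
      linarith)
    (by
      intro i hi
      exact h4' i (hIm i hi).2.2)
    hI4
    (by
      intro p hp F hF0 hFb hFe hcol
      obtain ⟨hp0, hp1, hp2, _⟩ := hJm p hp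
      have e1 := hend K F L L (x ^ p) (y ^ p) hF0 hcol hFb (hx.pow p) (hy.pow p)
        (hxy.pow hp0.pos) hFe
      have e2 := h6 p hp2
      rw [lam_pow, lam_pow] at e1
      have e3 : (L * (p * lam x) + L * (p * lam y)) / (N : ℝ) ≤ 2 * L * p * X / N := by
        apply div_le_div_of_nonneg_right _ hNR.le
        have e5 : (L : ℝ) * p * (lam x + lam y) ≤ L * p * (2 * X) := by gcongr
        nlinarith [e5]
      linarith)
  -- the second stage
  obtain ⟨hpp, hp1, hp2, hpg⟩ := hJm p hp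
  obtain ⟨_, hiQ, hiQ4⟩ := hIm i hi
  have ha : 1 ≤ F.degreeOf 0 := by
    by_contra h
    exact hFcol (col_of_degreeOf 0 (by omega))
  have hb : 1 ≤ F.degreeOf 1 := by
    by_contra h
    exact hFcol (col_of_degreeOf 1 (by omega))
  have haL : (Q + 1) * F.degreeOf 0 ≤ L := (Nat.mul_le_mul_right _ hiQ).trans hi0
  have hbL : (Q + 1) * F.degreeOf 1 ≤ L := (Nat.mul_le_mul_right _ hiQ).trans hi1
  have haL' : F.degreeOf 0 ≤ L := (Nat.le_mul_of_pos_left _ (Nat.succ_pos _)).trans haL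
  have hbL' : F.degreeOf 1 ≤ L := (Nat.le_mul_of_pos_left _ (Nat.succ_pos _)).trans hbL
  obtain ⟨A, B, g1, g2, g3, g5⟩ := h7 _ _ ha hb haL hbL
  have hA0 : (0 : ℝ) ≤ A := Nat.cast_nonneg A
  have hB0 : (0 : ℝ) ≤ B := Nat.cast_nonneg B
  refine hST2 K (x ^ p) (y ^ p) F T A B κ I (hx.pow p) (hy.pow p) hpg hF hFcol hFev hκ hκ2
    (ht.trans htT) (fun i hi => (hIm i hi).1) g1 ?_ (fun i hi => g3 i (hIm i hi).2.2) ?_
    (fun i hi h => g5 i (hIm i hi).2.1 h.1)
  · intro i hi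
    obtain ⟨_, hi1, hi2⟩ := hIm i hi
    refine lt_of_le_of_lt ?_ (g2 i hi1 hi2 p hp1 hp2)
    rw [lam_pow, lam_pow]
    have e0 : A * (p * lam x) + B * (p * lam y) ≤ ((A : ℝ) + B) * (p * X) := by
      have e4 : (A : ℝ) * (p * lam x) ≤ A * (p * X) := by gcongr
      have e5 : (B : ℝ) * (p * lam y) ≤ B * (p * X) := by gcongr
      linarith
    have e1 : (A * (p * lam x) + B * (p * lam y)) / (N : ℝ) ≤ ((A : ℝ) + B) * (p * X) / N := by
      gcongr
    have e2 : i * (A * (p * lam x) + B * (p * lam y)) / (N : ℝ) ≤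
        i * (((A : ℝ) + B) * (p * X)) / N := by
      gcongr
    have e3 := Lam_mono hκ A B T e1
    linarith
  · have e1 : 2 * F.degreeOf 0 * F.degreeOf 1 * (F.degreeOf 0 + F.degreeOf 1) ≤
        2 * L * L * (L + L) := by
      gcongr
    have e2 : 2 * L * L * (L + L) = 4 * L ^ 3 := by ring
    omega

/-- A lower bound for `lam x` (Dobrowolski), from S_END. -/
lemma lam_lower (hEND : S_END) : ∃ c : ℝ, 0 < c ∧ ∀ (K : Type) [Field K] [NumberField K]
    (x y : K), Unt x → Unt y → Ind x y → c / Real.log (2 * finrank ℚ K) ^ 3 ≤ lam x := by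
  obtain ⟨c, hc, hend⟩ := hEND
  refine ⟨c, hc, ?_⟩
  intro K _ _ x y hx hy hxy
  set N := finrank ℚ K with hNdef
  have hNpos : 0 < N := finrank_pos
  have hxi : IsIntegral ℚ x := Algebra.IsIntegral.isIntegral x
  set f := minpoly ℚ x with hf
  set d := f.natDegree with hd
  have hd1 : 1 ≤ d := minpoly.natDegree_pos hxi
  have hdN : d ≤ N := minpoly.natDegree_le x
  have hf0 : f ≠ 0 := minpoly.ne_zero hxi
  -- the polynomial in the first variable
  set F : Pol ℚ := Polynomial.aeval (X 0 : Pol ℚ) f with hF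
  have hcoef : F = ∑ i ∈ Finset.range (d + 1), monomial (Finsupp.single 0 i) (f.coeff i) := by
    rw [hF, Polynomial.aeval_eq_sum_range]
    refine Finset.sum_congr rfl fun i _ => ?_
    rw [MvPolynomial.smul_eq_C_mul, MvPolynomial.X_pow_eq_monomial, MvPolynomial.C_mul_monomial,
      mul_one]
  have hsupp : ∀ m ∈ F.support, m 0 ≤ d ∧ m 1 = 0 := by
    intro m hm
    rw [hcoef] at hm
    have h1 := MvPolynomial.support_sum hm
    rw [Finset.mem_biUnion] at h1
    obtain ⟨i, hi, hmi⟩ := h1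
    have h2 := MvPolynomial.support_monomial_subset hmi
    rw [Finset.mem_singleton] at h2
    rw [Finset.mem_range] at hi
    subst h2
    simp
    omega
  have hFev : ev x y F = 0 := by
    unfold ev
    rw [hF, ← Polynomial.aeval_algHom_apply]
    simp [hf]
  have hF0 : F ≠ 0 := by
    intro h
    have h1 : MvPolynomial.coeff (Finsupp.single 0 d) F = 1 := by
      rw [hcoef, MvPolynomial.coeff_sum]
      rw [Finset.sum_eq_single d]
      · rw [MvPolynomial.coeff_monomial, if_pos rfl]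
        exact minpoly.monic hxi
      · intro i _ hi
        rw [MvPolynomial.coeff_monomial, if_neg]
        intro h
        exact hi (Finsupp.single_injective 0 h)
      · intro h
        exact absurd (Finset.mem_range.mpr (Nat.lt_succ_self d)) h
    rw [h, MvPolynomial.coeff_zero] at h1
    exact zero_ne_one h1
  have hcol : Col F := ⟨0, 1, 0, by simp, fun m hm => by simp [(hsupp m hm).2]⟩
  have hbd : Bd d 0 F := fun m hm => ⟨(hsupp m hm).1, (hsupp m hm).2.le⟩
  have h1 := hend K F d 0 x y hF0 hcol hbd hx hy hxy hFev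
  simp only [Nat.cast_zero, add_zero, zero_mul] at h1
  have hdR : (1 : ℝ) ≤ d := by exact_mod_cast hd1
  have hdNR : (d : ℝ) ≤ N := by exact_mod_cast hdN
  have hNR : (0 : ℝ) < N := by exact_mod_cast hNpos
  have hlog1 : 0 < Real.log (2 * d) := Real.log_pos (by linarith)
  have hlog2 : Real.log (2 * d) ≤ Real.log (2 * N) := Real.log_le_log (by linarith) (by linarith)
  have h2 : c / Real.log (2 * N) ^ 3 ≤ c / Real.log (2 * d) ^ 3 := by
    gcongr
  have h3 : d * lam x / N ≤ lam x := by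
    rw [div_le_iff₀ hNR, mul_comm]
    exact mul_le_mul_of_nonneg_left hdNR (lam_nonneg x)
  linarith

/-- all degrees, generators -/
theorem ad_gen (hST1 : S_ST1) (hST2 : S_ST2) (hPR : S_PR) (hBAD : S_BAD) (hEND : S_END)
    (hPAR : S_PAR) (ε : ℝ) (hε : 0 < ε) (hε2 : ε < 1 / 2) :
    ∃ c : ℝ, 0 < c ∧ ∀ (K : Type) [Field K] [NumberField K] (x y : K), Unt x → Unt y → Ind x y →
      Gen x y → c * (finrank ℚ K : ℝ) ^ (1 / 2 - ε) ≤ max (lam x) (lam y) := by
  obtain ⟨N₀, hN₀⟩ := ad_large hST1 hST2 hPR hBAD hEND hPAR ε hε hε2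
  obtain ⟨c, hc, hlow⟩ := lam_lower hEND
  have hN1 : (1 : ℝ) ≤ (N₀ : ℝ) + 1 := by
    have : (0 : ℝ) ≤ N₀ := Nat.cast_nonneg _
    linarith
  have hlogN : 0 < Real.log (2 * ((N₀ : ℝ) + 1)) := Real.log_pos (by linarith)
  set c' := min 1 (c / Real.log (2 * ((N₀ : ℝ) + 1)) ^ 3 / ((N₀ : ℝ) + 1)) with hc'
  have hc'0 : 0 < c' := lt_min one_pos (by positivity)
  refine ⟨c', hc'0, ?_⟩
  intro K _ _ x y hx hy hxy hg
  set N := finrank ℚ K with hN
  have hNpos : 0 < N := finrank_pos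
  have hNR : (1 : ℝ) ≤ N := by exact_mod_cast hNpos
  rcases le_or_gt N₀ N with h | h
  · have h1 := hN₀ K x y hx hy hxy hg h
    have h2 : c' * (N : ℝ) ^ (1 / 2 - ε) ≤ 1 * (N : ℝ) ^ (1 / 2 - ε) := by
      gcongr
      exact min_le_left _ _
    linarith
  · have h1 := hlow K x y hx hy hxy
    rw [← hN] at h1
    have hNN : (N : ℝ) ≤ (N₀ : ℝ) + 1 := by
      have : (N : ℝ) < N₀ := by exact_mod_cast h
      linarith
    have hl1 : 0 < Real.log (2 * N) := Real.log_pos (by linarith)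
    have hl2 : Real.log (2 * N) ≤ Real.log (2 * ((N₀ : ℝ) + 1)) :=
      Real.log_le_log (by linarith) (by linarith)
    have h2 : c / Real.log (2 * ((N₀ : ℝ) + 1)) ^ 3 ≤ c / Real.log (2 * N) ^ 3 := by
      gcongr
    have h3 : (N : ℝ) ^ (1 / 2 - ε) ≤ (N₀ : ℝ) + 1 := by
      calc (N : ℝ) ^ (1 / 2 - ε) ≤ (N : ℝ) ^ (1 : ℝ) :=
            Real.rpow_le_rpow_of_exponent_le hNR (by linarith)
        _ = N := Real.rpow_one _
        _ ≤ _ := hNN
    calc c' * (N : ℝ) ^ (1 / 2 - ε)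
        ≤ (c / Real.log (2 * ((N₀ : ℝ) + 1)) ^ 3 / ((N₀ : ℝ) + 1)) * ((N₀ : ℝ) + 1) := by
          apply mul_le_mul (min_le_right _ _) h3 (by positivity) (by positivity)
      _ = c / Real.log (2 * ((N₀ : ℝ) + 1)) ^ 3 := by field_simp
      _ ≤ lam x := by linarith
      _ ≤ _ := le_max_left _ _

/-- `lam` in an extension. -/
lemma lam_ext {K : Type} [Field K] [NumberField K] (E : IntermediateField ℚ K) (x : E) :
    lam (x : K) = finrank E K * lam x := by
  classical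
  unfold lam
  rw [← (algHomEquivSigma (A := ℚ) (B := E) (C := K) (D := ℂ)).symm.sum_comp]
  rw [Fintype.sum_sigma, Finset.mul_sum]
  refine Finset.sum_congr rfl fun τ _ => ?_
  have h1 : ∀ σ : @AlgHom E K ℂ _ _ _ _ (τ.toRingHom.toAlgebra),
      (algHomEquivSigma (A := ℚ) (B := E) (C := K) (D := ℂ)).symm ⟨τ, σ⟩ (x : K) = τ x := by
    intro σ
    letI := τ.toRingHom.toAlgebra
    exact σ.commutes x
  rw [Finset.sum_congr rfl fun σ _ => by rw [h1 σ]]
  rw [Finset.sum_const, nsmul_eq_mul, Finset.card_univ]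
  congr 2
  letI := τ.toRingHom.toAlgebra
  exact AlgHom.card E K ℂ

theorem ad_main (hST1 : S_ST1) (hST2 : S_ST2) (hPR : S_PR) (hBAD : S_BAD) (hEND : S_END)
    (hPAR : S_PAR) : S_AD := by
  intro ε hε
  set ε' := min ε (1 / 4) with hε'
  have hε'0 : 0 < ε' := lt_min hε (by norm_num)
  have hε'1 : ε' ≤ ε := min_le_left _ _
  have hε'2 : ε' ≤ 1 / 4 := min_le_right _ _
  obtain ⟨c, hc, h⟩ := ad_gen hST1 hST2 hPR hBAD hEND hPAR ε' hε'0 (by linarith)
  refine ⟨c, hc, ?_⟩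
  intro K _ _ x y hx hy hxy
  set E : IntermediateField ℚ K := IntermediateField.adjoin ℚ {x, y} with hE
  have hxE : x ∈ E := IntermediateField.subset_adjoin ℚ _ (by simp)
  have hyE : y ∈ E := IntermediateField.subset_adjoin ℚ _ (by simp)
  set x₀ : E := ⟨x, hxE⟩ with hx₀
  set y₀ : E := ⟨y, hyE⟩ with hy₀
  haveI : NumberField E := NumberField.mk
  have hinj : Function.Injective (algebraMap E K) := (algebraMap E K).injective
  have key : ∀ z : E, Unt (z : K) → Unt z := by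
    intro z hz
    refine ⟨fun h => hz.1 (by rw [h]; rfl), ?_, ?_⟩
    · exact (isIntegral_algebraMap_iff hinj).mp hz.2.1
    · have h2 : IsIntegral ℤ (algebraMap E K z⁻¹) := by
        rw [map_inv₀]; exact hz.2.2
      exact (isIntegral_algebraMap_iff hinj).mp h2
  have hx0 : Unt x₀ := key x₀ hx
  have hy0 : Unt y₀ := key y₀ hy
  have hxy0 : Ind x₀ y₀ := by
    intro r s hrs
    apply hxy r s
    have := congrArg (algebraMap E K) hrs
    rw [map_mul, map_zpow₀, map_zpow₀, map_one] at this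
    exact this
  have hg0 : Gen x₀ y₀ := by
    intro σ τ hστ
    simp only [Prod.mk.injEq] at hστ
    refine IntermediateField.algHom_ext_of_eq_adjoin ℚ hE ?_
    intro z hz
    simp only [Set.mem_insert_iff, Set.mem_singleton_iff] at hz
    rcases hz with h | h
    · subst h
      exact hστ.1
    · subst h
      exact hστ.2
  have h1 := h E x₀ y₀ hx0 hy0 hxy0 hg0
  have hlx : lam x = finrank E K * lam x₀ := lam_ext E x₀
  have hly : lam y = finrank E K * lam y₀ := lam_ext E y₀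
  have hfin : finrank ℚ E * finrank E K = finrank ℚ K := finrank_mul_finrank ℚ E K
  set m := finrank E K with hm
  have hm1 : 1 ≤ m := finrank_pos
  have hmR : (1 : ℝ) ≤ m := by exact_mod_cast hm1
  have hE1 : (1 : ℝ) ≤ finrank ℚ E := by exact_mod_cast (finrank_pos : 0 < finrank ℚ E)
  rw [hlx, hly, ← mul_max_of_nonneg _ _ (by positivity), ← hfin]
  push_cast
  have hb : (1 : ℝ) ≤ finrank ℚ E * m := by nlinarith
  calc c * ((finrank ℚ E : ℝ) * m) ^ (1 / 2 - ε)
      ≤ c * ((finrank ℚ E : ℝ) * m) ^ (1 / 2 - ε') := by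
        apply mul_le_mul_of_nonneg_left _ hc.le
        exact Real.rpow_le_rpow_of_exponent_le hb (by linarith)
    _ = c * ((finrank ℚ E : ℝ) ^ (1 / 2 - ε') * (m : ℝ) ^ (1 / 2 - ε')) := by
        rw [Real.mul_rpow (by positivity) (by positivity)]
    _ ≤ c * ((finrank ℚ E : ℝ) ^ (1 / 2 - ε') * m) := by
        apply mul_le_mul_of_nonneg_left _ hc.le
        apply mul_le_mul_of_nonneg_left _ (by positivity)
        calc (m : ℝ) ^ (1 / 2 - ε') ≤ (m : ℝ) ^ (1 : ℝ) :=
              Real.rpow_le_rpow_of_exponent_le hmR (by linarith)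
          _ = m := Real.rpow_one _
    _ = m * (c * (finrank ℚ E : ℝ) ^ (1 / 2 - ε')) := by ring
    _ ≤ m * max (lam x₀) (lam y₀) := by
        apply mul_le_mul_of_nonneg_left h1 (by positivity)

end Pool.Agent.N236.RT
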