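import Pool.Agent.N236.RT.Stm
import Pool.Agent.H225R3.MargDefs

/-!
# Project RT (rank two Lehmer): arithmetic groups
-/

set_option autoImplicit false

namespace Pool.Agent.N236.RT

open NumberField Module Pool.Agent.H225R3.Marg

/-- A realization of the subgroup `Γ` of `G` by elements of a division algebra `D` over the number
field `L`, with noncompact embeddings `S`: an injective homomorphism `r` to `D`, whose values are
integral and of norm one, such that for every embedding `σ` of `L` outside `S` the roots of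
`σ (minpoly (r γ))` have absolute value one, and for `σ` in `S` they are eigenvalues of `ρ γ`. -/
structure DivisionRealization {G : Type*} [Group G] {M : ℕ}
    (ρ : G →* Matrix (Fin M) (Fin M) ℂ) (Γ : Subgroup G) (L : Type) [Field L] [NumberField L]
    (D : Type) [DivisionRing D] [Algebra L D] (S : Finset (L →+* ℂ)) where
  r : Γ →* D
  injective : Function.Injective r
  integral : ∀ γ : Γ, IsIntegral ℤ (r γ)
  norm_one : ∀ γ : Γ, Algebra.norm L (r γ) = 1
  compact : ∀ σ : L →+* ℂ, σ ∉ S → ∀ (γ : Γ) (z : ℂ),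
    ((minpoly L (r γ)).map σ).IsRoot z → ‖z‖ = 1
  eig : ∀ σ ∈ S, ∀ (γ : Γ) (z : ℂ), ((minpoly L (r γ)).map σ).IsRoot z → IsEig (ρ γ) z

/-- DIV: in a division algebra of odd dimension, a noncentral element of norm one has two
multiplicatively independent conjugates. -/
def S_DIV : Prop := ∀ (L : Type) [Field L] [NumberField L] (Dv : Type) [DivisionRing Dv]
  [Algebra L Dv] [FiniteDimensional L Dv] (x : Dv), Odd (finrank L Dv) → IsIntegral ℤ x →
  Algebra.norm L x = 1 → (∀ n : ℕ, 0 < n → x ^ n ≠ 1) →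
  ∃ (E : Type) (_ : Field E) (_ : NumberField E) (_ : Algebra L E) (u v : E),
    finrank L E ≤ finrank L Dv ^ 2 ∧ Unt u ∧ Unt v ∧ Ind u v ∧
    Polynomial.aeval u (minpoly L x) = 0 ∧ Polynomial.aeval v (minpoly L x) = 0

/-- IMP: over fields with a subfield. -/
def S_IMP : Prop := ∀ (k₀ k E₀ : Type) [Field k₀] [NumberField k₀] [Field k] [NumberField k]
  [Field E₀] [NumberField E₀] [Algebra k₀ k] [Algebra k E₀] (S : Finset (k →+* ℂ)) (x : E₀),
  Unt x → (∀ n : ℕ, 0 < n → x ^ n ≠ 1) →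
  (∀ σ : E₀ →+* ℂ, σ.comp (algebraMap k E₀) ∉ S → ‖σ x‖ = 1) →
  (∀ τ₀ : k₀ →+* ℂ, ∃ τ : k →+* ℂ, τ ∉ S ∧ τ.comp (algebraMap k₀ k) = τ₀) →
  ∃ (E : Type) (_ : Field E) (_ : NumberField E) (i j : E₀ →+* E), Ind (i x) (j x) ∧
    finrank ℚ E ≤ finrank ℚ E₀ * (finrank k₀ k * finrank k E₀)

/-- PAIR: two independent units whose conjugates have absolute value one except above `S`. -/
def S_PAIR : Prop := ∀ ε : ℝ, 0 < ε → ∃ c : ℝ, 0 < c ∧
  ∀ (L E : Type) [Field L] [NumberField L] [Field E] [NumberField E] (i j : L →+* E)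
    (S : Finset (L →+* ℂ)) (u v : E) (l : ℝ), Unt u → Unt v → Ind u v → 0 ≤ l →
    (∀ σ : E →+* ℂ, σ.comp i ∉ S → ‖σ u‖ ≤ 1) → (∀ σ : E →+* ℂ, σ.comp j ∉ S → ‖σ v‖ ≤ 1) →
    (∀ σ : E →+* ℂ, σ.comp i ∈ S → Real.log ‖σ u‖ ≤ l) →
    (∀ σ : E →+* ℂ, σ.comp j ∈ S → Real.log ‖σ v‖ ≤ l) →
    c * (finrank ℚ E : ℝ) ^ (1 / 2 - ε) * finrank ℚ L ≤ S.card * finrank ℚ E * l

end Pool.Agent.N236.RT
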