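import Mathlib

/-!
# Project RT (rank two Lehmer): definitions

Only Mathlib is imported. `Pol R` is the polynomial ring in two variables.
-/

set_option autoImplicit false

namespace Pool.Agent.N236.RT

open MvPolynomial

/-- Polynomials in two variables. -/
abbrev Pol (R : Type*) [CommSemiring R] := MvPolynomial (Fin 2) R

/-- An algebraic closure of the rational numbers. -/
abbrev Qb := AlgebraicClosure ℚ

/-- The degree in the first variable is at most `A`, in the second variable at most `B`. -/
def Bd {R : Type*} [CommSemiring R] (A B : ℕ) (P : Pol R) : Prop :=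
  ∀ m ∈ P.support, m 0 ≤ A ∧ m 1 ≤ B

/-- The value of `P` at the point `(u, v)`. -/
noncomputable def ev {R S : Type*} [CommSemiring R] [CommSemiring S] [Algebra R S] (u v : S)
    (P : Pol R) : S := aeval ![u, v] P

/-- The divided partial derivative `∂^a/a! ∂^b/b!`. -/
noncomputable def D {R : Type*} [CommSemiring R] (a b : ℕ) (P : Pol R) : Pol R :=
  ∑ m ∈ P.support, monomial (Finsupp.single 0 (m 0 - a) + Finsupp.single 1 (m 1 - b))
    ((((m 0).choose a * (m 1).choose b : ℕ) : R) * coeff m P)

/-- `P` vanishes to order `T` at `(u, v)`. -/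
def VO {R S : Type*} [CommSemiring R] [CommSemiring S] [Algebra R S] (T : ℕ) (u v : S)
    (P : Pol R) : Prop := ∀ a b : ℕ, a + b < T → ev u v (D a b P) = 0

/-- The support of `P` lies on a line. -/
def Col {R : Type*} [CommSemiring R] (P : Pol R) : Prop :=
  ∃ u v w : ℤ, (u, v) ≠ (0, 0) ∧ ∀ m ∈ P.support, u * (m 0 : ℤ) + v * (m 1 : ℤ) = w

/-- The translate `P (ζ 0 * X, ζ 1 * Y)`. -/
noncomputable def tr {R : Type*} [CommSemiring R] (ζ : Fin 2 → R) (P : Pol R) : Pol R :=
  aeval (fun i => C (ζ i) * X i) P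

/-- The polynomial with the conjugate coefficients. -/
noncomputable def gal (τ : Qb ≃ₐ[ℚ] Qb) (P : Pol Qb) : Pol Qb := map (τ : Qb →+* Qb) P

/-- A rational polynomial over the algebraic closure. -/
noncomputable def up (P : Pol ℚ) : Pol Qb := map (algebraMap ℚ Qb) P

/-- `[K : ℚ]` times the logarithmic height of an algebraic integer `x` of `K`. -/
noncomputable def lam {K : Type} [Field K] [NumberField K] (x : K) : ℝ :=
  ∑ σ : K →ₐ[ℚ] ℂ, Real.log (max 1 ‖σ x‖)

/-- `x` and its inverse are algebraic integers, and `x ≠ 0`. -/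
def Unt {K : Type} [Field K] (x : K) : Prop := x ≠ 0 ∧ IsIntegral ℤ x ∧ IsIntegral ℤ x⁻¹

/-- `x` and `y` are multiplicatively independent. -/
def Ind {K : Type} [Field K] (x y : K) : Prop := ∀ r s : ℤ, x ^ r * y ^ s = 1 → r = 0 ∧ s = 0

/-- The `[K : ℚ]` embeddings of `K` into `Qb` give different points `(σ x, σ y)`. -/
def Gen {K : Type} [Field K] [NumberField K] (x y : K) : Prop :=
  Function.Injective (fun σ : K →ₐ[ℚ] Qb => (σ x, σ y))

/-- The space of rational polynomials in the box `(A, B)` which vanish to order `T` at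
`(x, y)`. -/
def Wsp {K : Type} [Field K] [NumberField K] (x y : K) (A B T : ℕ) : Set (Pol ℚ) :=
  {P | Bd A B P ∧ VO T x y P}

/-- The upper bound for the logarithm of the coefficients in the auxiliary polynomial. -/
noncomputable def Lam (κ : ℝ) (A B T : ℕ) (h : ℝ) : ℝ :=
  2 * κ * (2 * Real.log (2 * ((A : ℝ) + 1) * (B + 1)) + T * Real.log (A + B + 1) + h) + 1

end Pool.Agent.N236.RT
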