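import Pool.Agent.N236.RT.App
import Pool.Agent.H225R3.Marg8

/-!
# Project RT: uniform discreteness from the parts
-/

set_option autoImplicit false

namespace Pool.Agent.N236.RT

open NumberField Module Pool.Agent.H225R3.Marg

/-- From an eigenvalue with large absolute value to uniform discreteness. -/
lemma discrete_of_bound {G : Type*} [Group G] [TopologicalSpace G] {M : ℕ}
    (ρ : G →* Matrix (Fin M) (Fin M) ℂ) (hρ : Continuous ρ) (c : ℝ) (hc : 0 < c)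
    (F : Set (Subgroup G))
    (h : ∀ Γ ∈ F, ∀ γ ∈ Γ, γ ≠ 1 → ∃ l : ℂ, IsEig (ρ γ) l ∧ c ≤ Real.log ‖l‖) :
    UniformlyDiscrete F := by
  obtain ⟨ε, hε, hε2⟩ : ∃ ε : ℝ, 0 < ε ∧ Real.log (1 + ε) < c := by
    refine ⟨Real.exp (c / 2) - 1, by have := Real.add_one_lt_exp (x := c / 2) (by positivity); linarith,
      ?_⟩
    rw [add_sub_cancel, Real.log_exp]
    linarith
  refine ⟨_, nhd ρ hρ ε hε, ?_⟩
  intro Γ hΓ g u hu hgu
  by_contra hne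
  obtain ⟨l, hl, hlow⟩ := h Γ hΓ _ hgu hne
  have h2 : (ρ (g * u * g⁻¹)).charpoly = (ρ u).charpoly := by
    rw [map_mul, map_mul]
    have h4 : ρ g⁻¹ * ρ g = 1 := by rw [← map_mul, inv_mul_cancel, map_one]
    rw [Matrix.charpoly_mul_comm, ← mul_assoc, h4, one_mul]
  rw [IsEig, h2] at hl
  have h5 := close_eig (ρ u) ε hε hu l hl
  have h6 : ‖l‖ ≤ 1 + ε := by
    have h7 : ‖l‖ ≤ ‖l - 1‖ + ‖(1 : ℂ)‖ := by
      have := norm_add_le (l - 1) 1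
      rwa [sub_add_cancel] at this
    rw [norm_one] at h7
    linarith
  have h8 : 0 < ‖l‖ := by
    by_contra h9
    have h10 : ‖l‖ = 0 := le_antisymm (not_lt.mp h9) (norm_nonneg _)
    rw [h10, Real.log_zero] at hlow
    linarith
  have h9 := Real.log_le_log h8 h6
  linarith

/-- Maximum of the logarithms of the eigenvalues, abstractly. -/
lemma pow_compare {c s d n N : ℝ} {ε : ℝ} (hε2 : ε ≤ 1 / 2) (hn : 1 ≤ n) (hnN : n ≤ N)
    (hNd : N ≤ d * n) (hs : 0 ≤ s) (l : ℝ) (hl : 0 ≤ l)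
    (h : c * N ^ (1 / 2 - ε) * n ≤ s * N * l) (hc : 0 < c) :
    c * n ^ (1 / 2 - ε) ≤ s * d * l := by
  have h1 : n ^ (1 / 2 - ε) ≤ N ^ (1 / 2 - ε) :=
    Real.rpow_le_rpow (by linarith) hnN (by linarith)
  have h2 : c * n ^ (1 / 2 - ε) * n ≤ s * (d * n) * l := by
    calc c * n ^ (1 / 2 - ε) * n ≤ c * N ^ (1 / 2 - ε) * n := by gcongr
      _ ≤ s * N * l := h
      _ ≤ s * (d * n) * l := by gcongr
  have h3 : c * n ^ (1 / 2 - ε) * n ≤ (s * d * l) * n := by linarith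
  exact le_of_mul_le_mul_right h3 (by linarith)

/-- A torsion-free subgroup. -/
def TorsionFree {G : Type*} [Group G] (Γ : Subgroup G) : Prop :=
  ∀ γ ∈ Γ, ∀ N : ℕ, 0 < N → γ ^ N = 1 → γ = 1

lemma final_ineq {c s d n N l₀ ε : ℝ} (hε2 : ε < 1 / 2) (hc : 0 < c) (hs : 0 ≤ s) (hd : 0 ≤ d)
    (hn : 1 ≤ n) (hnN : n ≤ N) (hNd : N ≤ d * n)
    (hl₀ : l₀ = c / (2 * ((s + 1) * (d + 1))) * n ^ (1 / 2 - ε))
    (h : c * N ^ (1 / 2 - ε) * n ≤ s * N * l₀) : False := by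
  have hpos : 0 < n ^ (1 / 2 - ε) := Real.rpow_pos_of_pos (by linarith) _
  have hl0 : 0 ≤ l₀ := by rw [hl₀]; positivity
  have h2 := pow_compare hε2.le hn hnN hNd hs l₀ hl0 h hc
  have h3 : s * d * l₀ ≤ (s + 1) * (d + 1) * l₀ := by
    have : s * d ≤ (s + 1) * (d + 1) := by nlinarith
    exact mul_le_mul_of_nonneg_right this hl0
  have h4 : (s + 1) * (d + 1) * l₀ = c * n ^ (1 / 2 - ε) / 2 := by
    rw [hl₀]
    field_simp
  have h5 : 0 < c * n ^ (1 / 2 - ε) := by positivity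
  linarith

lemma root_map {L E : Type} [Field L] [Field E] [Algebra L E] (f : Polynomial L) (w : E)
    (hw : Polynomial.aeval w f = 0) (σ : E →+* ℂ) :
    (f.map (σ.comp (algebraMap L E))).IsRoot (σ w) := by
  rw [Polynomial.IsRoot, Polynomial.eval_map, ← Polynomial.hom_eval₂, ← Polynomial.aeval_def, hw,
    map_zero]

lemma div_core {c ε : ℝ} (hc : 0 < c) (hε2 : ε < 1 / 2)
    (L E : Type) [Field L] [NumberField L] [Field E] [NumberField E] [Algebra L E]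
    (S : Finset (L →+* ℂ)) (u v : E) (f : Polynomial L) (s d : ℕ) (l₀ : ℝ)
    (hpair : ∀ (i j : L →+* E) (l : ℝ), 0 ≤ l →
      (∀ σ : E →+* ℂ, σ.comp i ∉ S → ‖σ u‖ ≤ 1) → (∀ σ : E →+* ℂ, σ.comp j ∉ S → ‖σ v‖ ≤ 1) →
      (∀ σ : E →+* ℂ, σ.comp i ∈ S → Real.log ‖σ u‖ ≤ l) →
      (∀ σ : E →+* ℂ, σ.comp j ∈ S → Real.log ‖σ v‖ ≤ l) →
      c * (finrank ℚ E : ℝ) ^ (1 / 2 - ε) * finrank ℚ L ≤ S.card * finrank ℚ E * l)
    (hl₀ : l₀ = c / (2 * (((s : ℝ) + 1) * ((d : ℝ) ^ 2 + 1))) *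
      (finrank ℚ L : ℝ) ^ (1 / 2 - ε))
    (hout : ∀ σ ∉ S, ∀ z : ℂ, (f.map σ).IsRoot z → ‖z‖ = 1)
    (hin : ∀ σ ∈ S, ∀ z : ℂ, (f.map σ).IsRoot z → Real.log ‖z‖ ≤ l₀)
    (hs : S.card ≤ s) (hE : finrank L E ≤ d ^ 2)
    (hu : Polynomial.aeval u f = 0) (hv : Polynomial.aeval v f = 0) : False := by
  have hn1 : (1 : ℝ) ≤ (finrank ℚ L : ℝ) := by
    have h : 0 < finrank ℚ L := finrank_pos
    exact_mod_cast h
  have hl₀0 : 0 ≤ l₀ := by rw [hl₀]; positivity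
  have h1 := hpair (algebraMap L E) (algebraMap L E) l₀ hl₀0
    (fun σ hσ => (hout _ hσ _ (root_map f u hu σ)).le)
    (fun σ hσ => (hout _ hσ _ (root_map f v hv σ)).le)
    (fun σ hσ => hin _ hσ _ (root_map f u hu σ))
    (fun σ hσ => hin _ hσ _ (root_map f v hv σ))
  have hNn : (finrank ℚ E : ℝ) = finrank ℚ L * finrank L E := by
    exact_mod_cast (finrank_mul_finrank ℚ L E).symm
  have hLE1 : (1 : ℝ) ≤ finrank L E := by
    have : 0 < finrank L E := finrank_pos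
    exact_mod_cast this
  have hLEd : (finrank L E : ℝ) ≤ (d : ℝ) ^ 2 := by
    exact_mod_cast hE
  refine final_ineq (c := c) (s := s) (d := (d : ℝ) ^ 2) hε2 hc (Nat.cast_nonneg s)
    (by positivity) hn1 (N := finrank ℚ E) (by rw [hNn]; nlinarith) (by rw [hNn]; nlinarith) hl₀ ?_
  refine h1.trans ?_
  have hs' : (S.card : ℝ) ≤ s := by exact_mod_cast hs
  gcongr

/-- Division algebras of odd dimension. -/
theorem division_bound (hPAIR : S_PAIR) (hDIV : S_DIV) (ε : ℝ) (hε : 0 < ε) (hε2 : ε < 1 / 2)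
    (s d : ℕ) : ∃ c : ℝ, 0 < c ∧
    ∀ (G : Type*) [Group G] (M : ℕ) (ρ : G →* Matrix (Fin M) (Fin M) ℂ) (Γ : Subgroup G)
      (L : Type) [Field L] [NumberField L] (Dv : Type) [DivisionRing Dv] [Algebra L Dv]
      [FiniteDimensional L Dv] (S : Finset (L →+* ℂ)) (_ : DivisionRealization ρ Γ L Dv S),
      TorsionFree Γ → Odd (finrank L Dv) → finrank L Dv ≤ d → S.card ≤ s →
      ∀ γ ∈ Γ, γ ≠ 1 → ∃ l : ℂ, IsEig (ρ γ) l ∧
        c * (finrank ℚ L : ℝ) ^ (1 / 2 - ε) ≤ Real.log ‖l‖ := by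
  obtain ⟨c, hc, hpair⟩ := hPAIR ε hε
  refine ⟨c / (2 * ((s + 1) * (d ^ 2 + 1))), by positivity, ?_⟩
  intro G _ M ρ Γ L _ _ Dv _ _ _ S R htf hodd hd hs γ hγ hγ1
  by_contra hcon
  push Not at hcon
  obtain ⟨l₀, hl₀⟩ : ∃ l₀ : ℝ, l₀ = c / (2 * (((s : ℝ) + 1) * ((d : ℝ) ^ 2 + 1))) *
      (finrank ℚ L : ℝ) ^ (1 / 2 - ε) := ⟨_, rfl⟩
  rw [← hl₀] at hcon
  obtain ⟨x, hx⟩ : ∃ x, x = R.r ⟨γ, hγ⟩ := ⟨_, rfl⟩
  have hxt : ∀ m : ℕ, 0 < m → x ^ m ≠ 1 := by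
    intro m hm h
    rw [hx, ← map_pow, ← map_one R.r] at h
    have h1 := congrArg Subtype.val (R.injective h)
    exact hγ1 (htf γ hγ m hm h1)
  have hout : ∀ σ ∉ S, ∀ z : ℂ, ((minpoly L x).map σ).IsRoot z → ‖z‖ = 1 := by
    intro σ hσ z hz
    rw [hx] at hz
    exact R.compact σ hσ ⟨γ, hγ⟩ z hz
  have hin : ∀ σ ∈ S, ∀ z : ℂ, ((minpoly L x).map σ).IsRoot z → Real.log ‖z‖ ≤ l₀ := by
    intro σ hσ z hz
    rw [hx] at hz
    have h : IsEig (ρ γ) z := R.eig σ hσ ⟨γ, hγ⟩ z hz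
    exact (hcon z h).le
  have hxi : IsIntegral ℤ x := by rw [hx]; exact R.integral ⟨γ, hγ⟩
  have hxn : Algebra.norm L x = 1 := by rw [hx]; exact R.norm_one ⟨γ, hγ⟩
  clear hx
  obtain ⟨E, iE, iNE, iAE, u, v, hE, hu, hv, huv, hru, hrv⟩ := hDIV L Dv x hodd hxi hxn hxt
  exact div_core hc hε2 L E S u v (minpoly L x) s d l₀
    (fun i j l hl h1 h2 h3 h4 => hpair L E i j S u v l hu hv huv hl h1 h2 h3 h4) hl₀ hout hin hs
    (hE.trans (Nat.pow_le_pow_left hd 2)) hru hrv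

end Pool.Agent.N236.RT
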