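import Pool.Agent.N236.RT.Fin1

/-!
# Project RT: eigenvalues of integral matrices
-/

set_option autoImplicit false

namespace Pool.Agent.N236.RT

open NumberField Module Polynomial Pool.Agent.H225R3.Marg

section

variable {k : Type} [Field k] [NumberField k] {n : ℕ}

lemma charpoly_emb (A : Matrix (Fin n) (Fin n) (𝓞 k)) (σ : k →+* ℂ) :
    (conjMat σ A).charpoly = A.charpoly.map (emb σ) := by
  rw [← Matrix.charpoly_map]; rfl

lemma isEig_of_root (A : Matrix (Fin n) (Fin n) (𝓞 k)) {E : Type} [Field E] (i : k →+* E) (x : E)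
    (hx : eval₂ (i.comp (algebraMap (𝓞 k) k)) x A.charpoly = 0) (σ : E →+* ℂ) :
    IsEig (conjMat (σ.comp i) A) (σ x) := by
  rw [IsEig, charpoly_emb, IsRoot, eval_map]
  have h2 : emb (σ.comp i) = σ.comp (i.comp (algebraMap (𝓞 k) k)) := rfl
  rw [h2, ← hom_eval₂, hx, map_zero]

lemma unt_of_root (A : Matrix (Fin n) (Fin n) (𝓞 k)) (hA : IsUnit A) {E : Type} [Field E]
    [NumberField E] (i : k →+* E) (x : E)
    (hx : eval₂ (i.comp (algebraMap (𝓞 k) k)) x A.charpoly = 0) : Unt x := by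
  letI : Algebra k E := i.toAlgebra
  set g : 𝓞 k →+* E := i.comp (algebraMap (𝓞 k) k) with hg
  letI : Algebra (𝓞 k) E := g.toAlgebra
  haveI : IsScalarTower ℤ (𝓞 k) E := IsScalarTower.of_algebraMap_eq' (RingHom.ext_int _ _)
  have hxint : IsIntegral (𝓞 k) x := ⟨A.charpoly, A.charpoly_monic, hx⟩
  have hdet : IsUnit (A.charpoly.coeff 0) := by
    have h1 : A.det = (-1) ^ Fintype.card (Fin n) * A.charpoly.coeff 0 :=
      Matrix.det_eq_sign_charpoly_coeff A
    have h2 : IsUnit A.det := (Matrix.isUnit_iff_isUnit_det A).mp hA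
    rw [h1] at h2
    exact isUnit_of_mul_isUnit_right h2
  obtain ⟨v, hv⟩ := hdet
  have h3 : x * eval₂ g x A.charpoly.divX = - g (v : 𝓞 k) := by
    have h4 := congrArg (eval₂ g x) (divX_mul_X_add A.charpoly)
    rw [eval₂_add, eval₂_mul, eval₂_X, eval₂_C, hx, ← hv] at h4
    linear_combination h4
  have h5 : g (v : 𝓞 k) * g ((v⁻¹ : (𝓞 k)ˣ) : 𝓞 k) = 1 := by
    rw [← map_mul, Units.mul_inv, map_one]
  have h6 : x * (- eval₂ g x A.charpoly.divX * g ((v⁻¹ : (𝓞 k)ˣ) : 𝓞 k)) = 1 := by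
    linear_combination (-g ((v⁻¹ : (𝓞 k)ˣ) : 𝓞 k)) * h3 + h5
  have hx0 : x ≠ 0 := left_ne_zero_of_mul_eq_one h6
  have h7 : x⁻¹ = - eval₂ g x A.charpoly.divX * g ((v⁻¹ : (𝓞 k)ˣ) : 𝓞 k) :=
    inv_eq_of_mul_eq_one_right h6
  refine ⟨hx0, isIntegral_trans x hxint, ?_⟩
  rw [h7]
  have h8 : IsIntegral (𝓞 k) (eval₂ g x A.charpoly.divX) := by
    have : eval₂ g x A.charpoly.divX = aeval x A.charpoly.divX := rfl
    rw [this]
    exact IsIntegral.of_mem_of_fg _ hxint.fg_adjoin_singleton _ (aeval_mem_adjoin_singleton _ _)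
  have h9 : IsIntegral (𝓞 k) (g ((v⁻¹ : (𝓞 k)ˣ) : 𝓞 k)) := isIntegral_algebraMap
  exact isIntegral_trans _ (h8.neg.mul h9)

lemma exists_eig (A : Matrix (Fin n) (Fin n) (𝓞 k)) (hA : IsUnit A)
    (hnil : ∀ N : ℕ, 0 < N → ¬ IsNilpotent (A ^ N - 1)) :
    ∃ (L : Type) (_ : Field L) (_ : NumberField L) (_ : Algebra k L) (x : L), Unt x ∧
      (∀ N : ℕ, 0 < N → x ^ N ≠ 1) ∧ finrank k L ≤ n ∧
      eval₂ ((algebraMap k L).comp (algebraMap (𝓞 k) k)) x A.charpoly = 0 := by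
  classical
  set f : 𝓞 k →+* AlgebraicClosure k :=
    (algebraMap k (AlgebraicClosure k)).comp (algebraMap (𝓞 k) k) with hf
  have hfinj : Function.Injective f :=
    (algebraMap k (AlgebraicClosure k)).injective.comp
      (FaithfulSMul.algebraMap_injective (𝓞 k) k)
  obtain ⟨l, hl, hlN⟩ : ∃ l, (A.charpoly.map f).IsRoot l ∧ ∀ N : ℕ, 0 < N → l ^ N ≠ 1 := by
    by_contra hcon
    push Not at hcon
    obtain ⟨N, hN, h⟩ := nilp_of_roots f hfinj A hcon
    exact hnil N hN h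
  have hlint : IsIntegral k l := Algebra.IsIntegral.isIntegral l
  let L := IntermediateField.adjoin k {l}
  haveI : FiniteDimensional k L := IntermediateField.adjoin.finiteDimensional hlint
  haveI : CharZero L := charZero_of_injective_algebraMap (algebraMap k L).injective
  haveI : NumberField L := NumberField.of_module_finite k L
  let x : L := ⟨l, IntermediateField.mem_adjoin_simple_self k l⟩
  have hxl : algebraMap L (AlgebraicClosure k) x = l := rfl
  set g : 𝓞 k →+* L := (algebraMap k L).comp (algebraMap (𝓞 k) k) with hg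
  have hgf : (algebraMap L (AlgebraicClosure k)).comp g = f := by
    rw [hg, hf, ← RingHom.comp_assoc]
    rfl
  have hx0 : eval₂ g x A.charpoly = 0 := by
    apply (algebraMap L (AlgebraicClosure k)).injective
    rw [map_zero, hom_eval₂, hgf, hxl]
    rw [IsRoot, eval_map] at hl
    exact hl
  have hxroot : ∀ N : ℕ, 0 < N → x ^ N ≠ 1 := by
    intro N hN h
    apply hlN N hN
    rw [← hxl, ← map_pow, h, map_one]
  have hdeg : finrank k L ≤ n := by
    have h1 : finrank k L = (minpoly k l).natDegree := IntermediateField.adjoin.finrank hlint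
    rw [h1]
    have h2 : (A.charpoly.map (algebraMap (𝓞 k) k)).Monic := A.charpoly_monic.map _
    have h3 : aeval l (A.charpoly.map (algebraMap (𝓞 k) k)) = 0 := by
      rw [aeval_def, eval₂_map]
      rw [IsRoot, eval_map] at hl
      exact hl
    refine (natDegree_le_of_dvd (minpoly.dvd k l h3) h2.ne_zero).trans ?_
    rw [A.charpoly_monic.natDegree_map, Matrix.charpoly_natDegree_eq_dim, Fintype.card_fin]
  exact ⟨L, inferInstance, inferInstance, inferInstance, x, unt_of_root A hA _ x hx0, hxroot,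
    hdeg, hx0⟩

lemma isEig_inv {A B : Matrix (Fin n) (Fin n) ℂ} (h1 : A * B = 1) (h2 : B * A = 1) {l : ℂ}
    (hl : IsEig A l) : l ≠ 0 ∧ IsEig B l⁻¹ := by
  have hs : l ∈ spectrum ℂ A := Matrix.mem_spectrum_iff_isRoot_charpoly.mpr hl
  let a : (Matrix (Fin n) (Fin n) ℂ)ˣ := ⟨A, B, h1, h2⟩
  have hl0 : l ≠ 0 := by
    rintro rfl
    exact (spectrum.zero_notMem_iff ℂ).mpr a.isUnit hs
  refine ⟨hl0, ?_⟩
  have h3 : ((Units.mk0 l hl0 : ℂˣ) : ℂ) ∈ spectrum ℂ (a : Matrix (Fin n) (Fin n) ℂ) := hs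
  have h4 := spectrum.inv_mem_iff.mp h3
  exact Matrix.mem_spectrum_iff_isRoot_charpoly.mp h4

end

/-- Eigenvalues at the compact places have absolute value one. -/
lemma norm_eig_eq_one {G : Type*} [Group G] {M : ℕ} {ρ : G →* Matrix (Fin M) (Fin M) ℂ}
    {Γ : Subgroup G} {k : Type} [Field k] [NumberField k] {n : ℕ} {S : Finset (k →+* ℂ)}
    (R : Realization ρ Γ k n S) (γ : Γ) (σ : k →+* ℂ) (hσ : σ ∉ S) (l : ℂ)
    (h : IsEig (conjMat σ (R.r γ)) l) : ‖l‖ = 1 := by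
  have h1 : ‖l‖ ≤ 1 := R.comp' γ σ hσ l h
  have hmul : ∀ A B : Matrix (Fin n) (Fin n) (𝓞 k), conjMat σ (A * B) =
      conjMat σ A * conjMat σ B := fun A B => map_mul (emb σ).mapMatrix A B
  have hone : conjMat σ (1 : Matrix (Fin n) (Fin n) (𝓞 k)) = 1 := map_one (emb σ).mapMatrix
  obtain ⟨hl0, h2⟩ := isEig_inv (A := conjMat σ (R.r γ)) (B := conjMat σ (R.r γ⁻¹))
    (by rw [← hmul, ← map_mul, mul_inv_cancel, map_one, hone])
    (by rw [← hmul, ← map_mul, inv_mul_cancel, map_one, hone]) h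
  have h3 : ‖l⁻¹‖ ≤ 1 := R.comp' γ⁻¹ σ hσ _ h2
  rw [norm_inv] at h3
  have h4 : 0 < ‖l‖ := norm_pos_iff.mpr hl0
  have h5 : 1 ≤ ‖l‖ := by
    by_contra h6
    push Not at h6
    exact absurd h3 (not_le.mpr (one_lt_inv₀ h4 |>.mpr h6))
  exact le_antisymm h1 h5

end Pool.Agent.N236.RT
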