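import Pool.Agent.N236.RT.Fin2

/-!
# Project RT: independent eigenvalues, and fields with subfields
-/

set_option autoImplicit false

namespace Pool.Agent.N236.RT

open NumberField Module Polynomial Pool.Agent.H225R3.Marg

lemma pair_core {c ε : ℝ} {k E : Type} [Field k] [NumberField k] [Field E] [NumberField E]
    {n : ℕ} (A : Matrix (Fin n) (Fin n) (𝓞 k)) (hA : IsUnit A) (S : Finset (k →+* ℂ))
    (hpair : ∀ (i j : k →+* E) (S : Finset (k →+* ℂ)) (u v : E) (l : ℝ), Unt u → Unt v →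
      Ind u v → 0 ≤ l →
      (∀ σ : E →+* ℂ, σ.comp i ∉ S → ‖σ u‖ ≤ 1) → (∀ σ : E →+* ℂ, σ.comp j ∉ S → ‖σ v‖ ≤ 1) →
      (∀ σ : E →+* ℂ, σ.comp i ∈ S → Real.log ‖σ u‖ ≤ l) →
      (∀ σ : E →+* ℂ, σ.comp j ∈ S → Real.log ‖σ v‖ ≤ l) →
      c * (finrank ℚ E : ℝ) ^ (1 / 2 - ε) * finrank ℚ k ≤ S.card * finrank ℚ E * l)
    (hout : ∀ σ : k →+* ℂ, σ ∉ S → ∀ l : ℂ, IsEig (conjMat σ A) l → ‖l‖ ≤ 1)
    (l₀ : ℝ) (hl₀ : 0 ≤ l₀)
    (hin : ∀ σ ∈ S, ∀ l : ℂ, IsEig (conjMat σ A) l → Real.log ‖l‖ ≤ l₀)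
    (i j : k →+* E) (u v : E)
    (hu : eval₂ (i.comp (algebraMap (𝓞 k) k)) u A.charpoly = 0)
    (hv : eval₂ (j.comp (algebraMap (𝓞 k) k)) v A.charpoly = 0) (huv : Ind u v) :
    c * (finrank ℚ E : ℝ) ^ (1 / 2 - ε) * finrank ℚ k ≤ S.card * finrank ℚ E * l₀ :=
  hpair i j S u v l₀ (unt_of_root A hA i u hu) (unt_of_root A hA j v hv) huv hl₀
    (fun σ hσ => hout _ hσ _ (isEig_of_root A i u hu σ))
    (fun σ hσ => hout _ hσ _ (isEig_of_root A j v hv σ))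
    (fun σ hσ => hin _ hσ _ (isEig_of_root A i u hu σ))
    (fun σ hσ => hin _ hσ _ (isEig_of_root A j v hv σ))

/-- Two independent eigenvalues of the conjugate matrix, in a number field. -/
lemma field_of_pair {k : Type} [Field k] [NumberField k] {n : ℕ}
    (A : Matrix (Fin n) (Fin n) (𝓞 k)) (σ : k →+* ℂ) (z w : ℂ) (hz : IsEig (conjMat σ A) z)
    (hw : IsEig (conjMat σ A) w) (hzw : ∀ a b : ℤ, z ^ a * w ^ b = 1 → a = 0 ∧ b = 0) :
    ∃ (E : Type) (_ : Field E) (_ : NumberField E) (i : k →+* E) (u v : E),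
      eval₂ (i.comp (algebraMap (𝓞 k) k)) u A.charpoly = 0 ∧
      eval₂ (i.comp (algebraMap (𝓞 k) k)) v A.charpoly = 0 ∧ Ind u v ∧
      finrank ℚ k ≤ finrank ℚ E ∧ finrank ℚ E ≤ n ^ 2 * finrank ℚ k := by
  letI : Algebra k ℂ := σ.toAlgebra
  set f : k[X] := A.charpoly.map (algebraMap (𝓞 k) k) with hf
  have hfm : f.Monic := A.charpoly_monic.map _
  have hfd : f.natDegree = n := by
    rw [hf, A.charpoly_monic.natDegree_map, Matrix.charpoly_natDegree_eq_dim, Fintype.card_fin]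
  have hroot : ∀ t : ℂ, IsEig (conjMat σ A) t → aeval t f = 0 := by
    intro t ht
    rw [IsEig, charpoly_emb, IsRoot, eval_map] at ht
    rw [aeval_def, hf, eval₂_map]
    exact ht
  have hint : ∀ t : ℂ, IsEig (conjMat σ A) t → IsIntegral k t := fun t ht => ⟨f, hfm, hroot t ht⟩
  have hdeg : ∀ t : ℂ, IsEig (conjMat σ A) t → finrank k (IntermediateField.adjoin k {t}) ≤ n := by
    intro t ht
    rw [IntermediateField.adjoin.finrank (hint t ht), ← hfd]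
    exact natDegree_le_of_dvd (minpoly.dvd k t (hroot t ht)) hfm.ne_zero
  set E₁ := IntermediateField.adjoin k {z} with hE₁
  set E₂ := IntermediateField.adjoin k {w} with hE₂
  haveI : FiniteDimensional k E₁ := IntermediateField.adjoin.finiteDimensional (hint z hz)
  haveI : FiniteDimensional k E₂ := IntermediateField.adjoin.finiteDimensional (hint w hw)
  set E := E₁ ⊔ E₂ with hE
  haveI : FiniteDimensional k E := IntermediateField.finiteDimensional_sup E₁ E₂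
  haveI : CharZero E := charZero_of_injective_algebraMap (algebraMap k E).injective
  haveI : NumberField E := NumberField.of_module_finite k E
  have hzE : z ∈ E := le_sup_left (a := E₁) (IntermediateField.mem_adjoin_simple_self k z)
  have hwE : w ∈ E := le_sup_right (a := E₁) (IntermediateField.mem_adjoin_simple_self k w)
  have hval : ∀ (t : ℂ) (ht : t ∈ E), aeval t f = 0 →
      eval₂ ((algebraMap k E).comp (algebraMap (𝓞 k) k)) (⟨t, ht⟩ : E) A.charpoly = 0 := by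
    intro t ht h0
    apply (algebraMap E ℂ).injective
    rw [map_zero, hom_eval₂]
    rw [aeval_def, hf, eval₂_map] at h0
    exact h0
  have hrank : finrank k E ≤ n * n :=
    (IntermediateField.finrank_sup_le E₁ E₂).trans (Nat.mul_le_mul (hdeg z hz) (hdeg w hw))
  have hfin : finrank ℚ E = finrank ℚ k * finrank k E := (finrank_mul_finrank ℚ k E).symm
  have hpos : 0 < finrank k E := finrank_pos
  refine ⟨E, inferInstance, inferInstance, algebraMap k E, ⟨z, hzE⟩, ⟨w, hwE⟩,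
    hval z hzE (hroot z hz), hval w hwE (hroot w hw), ?_, ?_, ?_⟩
  · intro a b hab
    apply hzw a b
    have h1 := congrArg (algebraMap E ℂ) hab
    rw [map_mul, map_zpow₀, map_zpow₀, map_one] at h1
    exact h1
  · rw [hfin]
    exact Nat.le_mul_of_pos_right _ hpos
  · rw [hfin, mul_comm]
    exact Nat.mul_le_mul_right _ (by rw [pow_two]; exact hrank)

/-- **Independent eigenvalues.** -/
theorem indep_bound (hPAIR : S_PAIR) (ε : ℝ) (hε : 0 < ε) (hε2 : ε < 1 / 2) (s n : ℕ) :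
    ∃ c : ℝ, 0 < c ∧ ∀ (G : Type*) [Group G] (M : ℕ) (ρ : G →* Matrix (Fin M) (Fin M) ℂ)
      (Γ : Subgroup G) (k : Type) [Field k] [NumberField k] (S : Finset (k →+* ℂ))
      (R : Realization ρ Γ k n S), S.card ≤ s → ∀ (γ : Γ) (σ : k →+* ℂ) (z w : ℂ),
      IsEig (conjMat σ (R.r γ)) z → IsEig (conjMat σ (R.r γ)) w →
      (∀ a b : ℤ, z ^ a * w ^ b = 1 → a = 0 ∧ b = 0) →
      ∃ τ ∈ S, ∃ l : ℂ, IsEig (conjMat τ (R.r γ)) l ∧ IsEig (ρ γ) l ∧
        c * (finrank ℚ k : ℝ) ^ (1 / 2 - ε) ≤ Real.log ‖l‖ := by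
  obtain ⟨c, hc, hpair⟩ := hPAIR ε hε
  refine ⟨c / (2 * ((s + 1) * ((n : ℝ) ^ 2 + 1))), by positivity, ?_⟩
  intro G _ M ρ Γ k _ _ S R hs γ σ z w hz hw hzw
  by_contra hcon
  push Not at hcon
  obtain ⟨l₀, hl₀⟩ : ∃ l₀ : ℝ, l₀ = c / (2 * (((s : ℝ) + 1) * ((n : ℝ) ^ 2 + 1))) *
      (finrank ℚ k : ℝ) ^ (1 / 2 - ε) := ⟨_, rfl⟩
  rw [← hl₀] at hcon
  have hl₀0 : 0 ≤ l₀ := by rw [hl₀]; positivity
  have hout : ∀ σ : k →+* ℂ, σ ∉ S → ∀ l : ℂ, IsEig (conjMat σ (R.r γ)) l → ‖l‖ ≤ 1 :=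
    fun σ hσ l hl => (norm_eig_eq_one R γ σ hσ l hl).le
  have hin : ∀ σ ∈ S, ∀ l : ℂ, IsEig (conjMat σ (R.r γ)) l → Real.log ‖l‖ ≤ l₀ :=
    fun σ hσ l hl => (hcon σ hσ l hl (R.eig σ hσ γ l hl)).le
  have hunit : IsUnit (R.r γ) := (Group.isUnit γ).map R.r
  obtain ⟨E, _, _, i, u, v, hu, hv, huv, hE1, hE2⟩ := field_of_pair (R.r γ) σ z w hz hw hzw
  have h1 := pair_core (R.r γ) hunit S (fun i j S u v l => hpair k E i j S u v l) hout l₀ hl₀0
    hin i i u v hu hv huv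
  have hn1 : (1 : ℝ) ≤ (finrank ℚ k : ℝ) := by
    have h : 0 < finrank ℚ k := finrank_pos
    exact_mod_cast h
  refine final_ineq (c := c) (s := s) (d := (n : ℝ) ^ 2) hε2 hc (Nat.cast_nonneg s)
    (by positivity) hn1 (N := finrank ℚ E) (by exact_mod_cast hE1) (by exact_mod_cast hE2) hl₀ ?_
  refine h1.trans ?_
  have hs' : (S.card : ℝ) ≤ s := by exact_mod_cast hs
  gcongr

lemma sub_ineq {c s n m N l α ε : ℝ} (hm : 1 ≤ m) (hn : 1 ≤ n) (hN : 1 ≤ N)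
    (hNb : N ≤ n ^ 2 * m ^ (2 - α)) (hε : 0 < ε) (hε2 : ε < 1 / 2) (hα : 0 < α)
    (h : c * N ^ (1 / 2 - ε / 2) * m ≤ s * N * l) (hs : 0 ≤ s) (hl : 0 ≤ l) :
    c * m ^ (α / 2 - ε) ≤ s * n ^ 2 * l := by
  have hN0 : 0 < N := by linarith
  have hm0 : 0 < m := by linarith
  have e1 : N ^ (1 / 2 - ε / 2) * N ^ (1 / 2 + ε / 2) = N := by
    rw [← Real.rpow_add hN0]; norm_num
  have hp : 0 < N ^ (1 / 2 - ε / 2) := Real.rpow_pos_of_pos hN0 _
  have h1 : c * m ≤ s * N ^ (1 / 2 + ε / 2) * l := by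
    have h2 : (c * m) * N ^ (1 / 2 - ε / 2) ≤ (s * N ^ (1 / 2 + ε / 2) * l) *
        N ^ (1 / 2 - ε / 2) := by
      calc (c * m) * N ^ (1 / 2 - ε / 2) = c * N ^ (1 / 2 - ε / 2) * m := by ring
        _ ≤ s * N * l := h
        _ = s * (N ^ (1 / 2 - ε / 2) * N ^ (1 / 2 + ε / 2)) * l := by rw [e1]
        _ = _ := by ring
    exact le_of_mul_le_mul_right h2 hp
  have h2 : N ^ (1 / 2 + ε / 2) ≤ n ^ 2 * m ^ (1 - α / 2 + ε) := by
    calc N ^ (1 / 2 + ε / 2) ≤ (n ^ 2 * m ^ (2 - α)) ^ (1 / 2 + ε / 2) :=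
          Real.rpow_le_rpow hN0.le hNb (by linarith)
      _ = (n ^ 2) ^ (1 / 2 + ε / 2) * (m ^ (2 - α)) ^ (1 / 2 + ε / 2) :=
          Real.mul_rpow (by positivity) (by positivity)
      _ ≤ (n ^ 2) ^ (1 : ℝ) * m ^ (1 - α / 2 + ε) := by
          apply mul_le_mul
          · apply Real.rpow_le_rpow_of_exponent_le
            · nlinarith
            · linarith
          · rw [← Real.rpow_mul hm0.le]
            apply Real.rpow_le_rpow_of_exponent_le hm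
            nlinarith [mul_pos hα hε]
          · positivity
          · positivity
      _ = _ := by rw [Real.rpow_one]
  have hq : 0 < m ^ (1 - α / 2 + ε) := Real.rpow_pos_of_pos hm0 _
  have e2 : m ^ (α / 2 - ε) * m ^ (1 - α / 2 + ε) = m := by
    rw [← Real.rpow_add hm0]
    have : α / 2 - ε + (1 - α / 2 + ε) = 1 := by ring
    rw [this, Real.rpow_one]
  have h3 : (c * m ^ (α / 2 - ε)) * m ^ (1 - α / 2 + ε) ≤
      (s * n ^ 2 * l) * m ^ (1 - α / 2 + ε) := by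
    calc (c * m ^ (α / 2 - ε)) * m ^ (1 - α / 2 + ε)
        = c * (m ^ (α / 2 - ε) * m ^ (1 - α / 2 + ε)) := by ring
      _ = c * m := by rw [e2]
      _ ≤ s * N ^ (1 / 2 + ε / 2) * l := h1
      _ ≤ s * (n ^ 2 * m ^ (1 - α / 2 + ε)) * l := by gcongr
      _ = _ := by ring
  exact le_of_mul_le_mul_right h3 hq

/-- Every embedding of `k₀` is the restriction of an embedding of `k` outside `S`. -/
def Avoids (k₀ k : Type) [Field k₀] [Field k] [Algebra k₀ k] (S : Finset (k →+* ℂ)) : Prop :=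
  ∀ τ₀ : k₀ →+* ℂ, ∃ τ : k →+* ℂ, τ ∉ S ∧ τ.comp (algebraMap k₀ k) = τ₀

lemma avoids_of_card (k₀ k : Type) [Field k₀] [NumberField k₀] [Field k] [NumberField k]
    [Algebra k₀ k] (S : Finset (k →+* ℂ)) (h : S.card < finrank k₀ k) : Avoids k₀ k S := by
  classical
  intro τ₀
  by_contra hcon
  push Not at hcon
  letI : Algebra k₀ ℂ := τ₀.toAlgebra
  have hcard : Fintype.card (k →ₐ[k₀] ℂ) = finrank k₀ k := AlgHom.card k₀ k ℂ
  have hle : Fintype.card (k →ₐ[k₀] ℂ) ≤ S.card := by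
    rw [← Fintype.card_coe S]
    refine Fintype.card_le_of_injective (fun τ => (⟨(τ : k →+* ℂ), ?_⟩ : S)) ?_
    · by_contra hτ
      exact hcon τ hτ τ.comp_algebraMap
    · intro τ τ' h
      have h1 := congrArg Subtype.val h
      exact AlgHom.coe_ringHom_injective h1
  omega

/-- **Fields with a subfield.** -/
theorem subfield_bound (hPAIR : S_PAIR) (hIMP : S_IMP) (α ε : ℝ) (hα : 0 < α)
    (hε : 0 < ε) (hε2 : ε < 1 / 2) (s n : ℕ) :
    ∃ c : ℝ, 0 < c ∧ ∀ (G : Type*) [Group G] (M : ℕ) (ρ : G →* Matrix (Fin M) (Fin M) ℂ)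
      (Γ : Subgroup G) (k₀ k : Type) [Field k₀] [NumberField k₀] [Field k] [NumberField k]
      [Algebra k₀ k] (S : Finset (k →+* ℂ)) (_ : Realization ρ Γ k n S), TorsionFree Γ →
      S.card ≤ s → Avoids k₀ k S → (finrank k₀ k : ℝ) ≤ (finrank ℚ k : ℝ) ^ (1 - α) →
      ∀ γ ∈ Γ, γ ≠ 1 → ∃ l : ℂ, IsEig (ρ γ) l ∧
        c * (finrank ℚ k : ℝ) ^ (α / 2 - ε) ≤ Real.log ‖l‖ := by
  obtain ⟨c, hc, hpair⟩ := hPAIR (ε / 2) (by positivity)
  refine ⟨c / (2 * ((s + 1) * ((n : ℝ) ^ 2 + 1))), by positivity, ?_⟩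
  intro G _ M ρ Γ k₀ k _ _ _ _ _ S R htf hs hav hfr γ hγ hγ1
  by_contra hcon
  push Not at hcon
  obtain ⟨l₀, hl₀⟩ : ∃ l₀ : ℝ, l₀ = c / (2 * (((s : ℝ) + 1) * ((n : ℝ) ^ 2 + 1))) *
      (finrank ℚ k : ℝ) ^ (α / 2 - ε) := ⟨_, rfl⟩
  rw [← hl₀] at hcon
  have hl₀0 : 0 ≤ l₀ := by rw [hl₀]; positivity
  obtain ⟨A, hA⟩ : ∃ A, A = R.r ⟨γ, hγ⟩ := ⟨_, rfl⟩
  have hunit : IsUnit A := by rw [hA]; exact (Group.isUnit (⟨γ, hγ⟩ : Γ)).map R.r
  have hnil : ∀ N : ℕ, 0 < N → ¬ IsNilpotent (A ^ N - 1) := by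
    intro N hN h
    rw [hA, ← map_pow] at h
    have h1 := R.unipotent _ h
    exact hγ1 (htf γ hγ N hN (congrArg Subtype.val h1))
  have hone : ∀ σ : k →+* ℂ, σ ∉ S → ∀ l : ℂ, IsEig (conjMat σ A) l → ‖l‖ = 1 := by
    intro σ hσ l hl
    rw [hA] at hl
    exact norm_eig_eq_one R ⟨γ, hγ⟩ σ hσ l hl
  have hin : ∀ σ ∈ S, ∀ l : ℂ, IsEig (conjMat σ A) l → Real.log ‖l‖ ≤ l₀ := by
    intro σ hσ l hl
    rw [hA] at hl
    have h : IsEig (ρ γ) l := R.eig σ hσ ⟨γ, hγ⟩ l hl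
    exact (hcon l h).le
  clear hA
  obtain ⟨E₀, _, _, _, x, hx, hxt, hE₀, hxroot⟩ := exists_eig A hunit hnil
  obtain ⟨E, _, _, i, j, hij, hE⟩ := hIMP k₀ k E₀ S x hx hxt
    (fun σ hσ => hone _ hσ _ (isEig_of_root A (algebraMap k E₀) x hxroot σ)) hav
  have hroot : ∀ i : E₀ →+* E, eval₂ ((i.comp (algebraMap k E₀)).comp (algebraMap (𝓞 k) k)) (i x)
      A.charpoly = 0 := by
    intro i
    rw [RingHom.comp_assoc, ← hom_eval₂, hxroot, map_zero]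
  have h1 := pair_core A hunit S (fun i j S u v l => hpair k E i j S u v l)
    (fun σ hσ l hl => (hone σ hσ l hl).le) l₀ hl₀0 hin
    (i.comp (algebraMap k E₀)) (j.comp (algebraMap k E₀)) (i x) (j x) (hroot i) (hroot j) hij
  have hm1 : (1 : ℝ) ≤ (finrank ℚ k : ℝ) := by
    have h : 0 < finrank ℚ k := finrank_pos
    exact_mod_cast h
  have hn1 : (1 : ℝ) ≤ n := by
    have h : 0 < finrank k E₀ := finrank_pos
    exact_mod_cast h.trans_le hE₀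
  have hN1 : (1 : ℝ) ≤ (finrank ℚ E : ℝ) := by
    have h : 0 < finrank ℚ E := finrank_pos
    exact_mod_cast h
  have hNb : (finrank ℚ E : ℝ) ≤ (n : ℝ) ^ 2 * (finrank ℚ k : ℝ) ^ (2 - α) := by
    have h2 : finrank ℚ E ≤ (finrank ℚ k * n) * (finrank k₀ k * n) := by
      refine hE.trans ?_
      rw [← finrank_mul_finrank ℚ k E₀]
      exact Nat.mul_le_mul (Nat.mul_le_mul_left _ hE₀) (Nat.mul_le_mul_left _ hE₀)
    have h3 : (finrank ℚ E : ℝ) ≤ (finrank ℚ k * n) * (finrank k₀ k * n) := by exact_mod_cast h2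
    calc (finrank ℚ E : ℝ) ≤ (finrank ℚ k * n) * (finrank k₀ k * n) := h3
      _ ≤ (finrank ℚ k * n) * ((finrank ℚ k : ℝ) ^ (1 - α) * n) := by gcongr
      _ = (n : ℝ) ^ 2 * ((finrank ℚ k : ℝ) ^ (1 : ℝ) * (finrank ℚ k : ℝ) ^ (1 - α)) := by
          rw [Real.rpow_one]; ring
      _ = _ := by
          rw [← Real.rpow_add (by linarith)]
          congr 2
          ring
  have h2 : c * (finrank ℚ E : ℝ) ^ (1 / 2 - ε / 2) * finrank ℚ k ≤
      (s : ℝ) * finrank ℚ E * l₀ := by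
    refine h1.trans ?_
    have hs' : (S.card : ℝ) ≤ s := by exact_mod_cast hs
    gcongr
  have h3 := sub_ineq hm1 hn1 hN1 hNb hε hε2 hα h2 (Nat.cast_nonneg s) hl₀0
  have h4 : (s : ℝ) * (n : ℝ) ^ 2 * l₀ ≤ (s + 1) * ((n : ℝ) ^ 2 + 1) * l₀ := by
    have hs0 : (0 : ℝ) ≤ s := Nat.cast_nonneg s
    have : (s : ℝ) * (n : ℝ) ^ 2 ≤ (s + 1) * ((n : ℝ) ^ 2 + 1) := by nlinarith [sq_nonneg (n : ℝ)]
    exact mul_le_mul_of_nonneg_right this hl₀0
  have h5 : ((s : ℝ) + 1) * ((n : ℝ) ^ 2 + 1) * l₀ =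
      c * (finrank ℚ k : ℝ) ^ (α / 2 - ε) / 2 := by
    rw [hl₀]
    field_simp
  have h6 : 0 < c * (finrank ℚ k : ℝ) ^ (α / 2 - ε) := by positivity
  linarith

end Pool.Agent.N236.RT
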