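import Pool.Agent.N236.RT.Def

/-!
# Project RT (rank two Lehmer): statements of the parts
-/

set_option autoImplicit false

namespace Pool.Agent.N236.RT

open MvPolynomial Module

/-- TAY: Taylor expansion in a box. -/
def S_TAY1 : Prop := ∀ (R S : Type) [CommRing R] [CommRing S] [Algebra R S] (A B : ℕ) (P : Pol R),
  Bd A B P → ∀ u v h k : S, ev (u + h) (v + k) P =
    ∑ a ∈ Finset.range (A + 1), ∑ b ∈ Finset.range (B + 1), ev u v (D a b P) * h ^ a * k ^ b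

def S_TAY2 : Prop := ∀ (R : Type) [CommRing R] (P : Pol R) (a b a' b' : ℕ),
  D a b (D a' b' P) = C (((a + a').choose a * (b + b').choose b : ℕ) : R) * D (a + a') (b + b') P

def S_TAY3 : Prop := ∀ (R S : Type) [CommRing R] [CommRing S] [Algebra R S] (F G : Pol R)
  (u v : S) (T : ℕ), ev u v F = 0 → VO T u v (F ^ T * G)

def S_TAY4 : Prop := ∀ (P : Pol ℤ) (A B M : ℕ), Bd A B P → (∀ m, |coeff m P| ≤ M) →
  ∀ a b : ℕ, Bd A B (D a b P) ∧ ∀ m, |coeff m (D a b P)| ≤ (((A + B + 1) ^ (a + b) * M : ℕ) : ℤ)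

/-- linearity of `D a b` -/
def S_TAY5 : Prop := ∀ (R : Type) [CommRing R] (a b : ℕ), (∀ P Q : Pol R,
  D a b (P + Q) = D a b P + D a b Q) ∧ (∀ (c : R) (P : Pol R), D a b (C c * P) = C c * D a b P)

/-- MONO: finite extensions of `ℚ_p` are monogenic. -/
def S_MONO : Prop := ∀ (p : ℕ) [Fact p.Prime] (u v : PadicAlgCl p), ‖u‖ ≤ 1 → ‖v‖ ≤ 1 →
  ∃ θ : PadicAlgCl p, IsIntegral ℤ_[p] θ ∧ u ∈ Algebra.adjoin ℤ_[p] {θ} ∧
    v ∈ Algebra.adjoin ℤ_[p] {θ}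

/-- LOC: the `p`-adic divisibility. -/
def S_LOC : Prop := ∀ (p : ℕ) [Fact p.Prime] (T : ℕ) (P : Pol ℤ) (u v : PadicAlgCl p),
  ‖u‖ ≤ 1 → ‖v‖ ≤ 1 → VO T u v P → ‖ev (u ^ p) (v ^ p) P‖ ≤ ((p : ℝ)⁻¹) ^ T

/-- EXT: the norm is divisible by `p ^ (T N)`. -/
def S_EXT : Prop := ∀ (K : Type) [Field K] [NumberField K] (x y : K), IsIntegral ℤ x →
  IsIntegral ℤ y → ∀ (P : Pol ℤ) (T p : ℕ), VO T x y P → p.Prime → ev (x ^ p) (y ^ p) P ≠ 0 →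
  (p : ℝ) ^ (T * finrank ℚ K) ≤ ∏ σ : K →ₐ[ℚ] ℂ, ‖σ (ev (x ^ p) (y ^ p) P)‖

/-- EX: extrapolation. -/
def S_EX : Prop := ∀ (K : Type) [Field K] [NumberField K] (x y : K), IsIntegral ℤ x →
  IsIntegral ℤ y → ∀ (P : Pol ℤ) (A B M T t p : ℕ), Bd A B P → (∀ m, |coeff m P| ≤ M) → 1 ≤ M →
  VO T x y P → p.Prime → 1 ≤ t → t ≤ T →
  Real.log M + Real.log (((A : ℝ) + 1) * (B + 1)) + t * Real.log (A + B + 1)
    + p * (A * lam x + B * lam y) / finrank ℚ K < ((T : ℝ) - t) * Real.log p →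
  VO t (x ^ p) (y ^ p) P

/-- RS: Siegel's lemma with the rank of the system. The linear forms are `a j`, their common
rational zeros are counted by the `d` independent vectors `w`. -/
def S_RS : Prop := ∀ (K : Type) [Field K] [NumberField K] (n R : ℕ) (J : Type) (a : J → Fin n → K)
  (w : Fin (n - R) → Fin n → ℚ) (g : (K →ₐ[ℚ] ℂ) → ℝ) (h : ℝ) (B : ℕ),
  R ≤ n → (∀ j i, IsIntegral ℤ (a j i)) → LinearIndependent ℚ w →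
  (∀ k j, ∑ i, w k i • a j i = 0) → (∀ σ, 1 ≤ g σ) → (∀ σ j i, ‖σ (a j i)‖ ≤ g σ) →
  ∑ σ : K →ₐ[ℚ] ℂ, Real.log (g σ) ≤ finrank ℚ K * h → 1 ≤ B →
  (R.factorial : ℝ) * Real.exp (R * h) * (2 * n * B + 1) ^ R < ((B : ℝ) + 1) ^ n →
  ∃ v : Fin n → ℤ, v ≠ 0 ∧ (∀ j, ∑ i, v i • a j i = 0) ∧ ∀ i, |v i| ≤ B

/-- AUX: the auxiliary polynomial. -/
def S_AUX : Prop := ∀ (K : Type) [Field K] [NumberField K] (x y : K), IsIntegral ℤ x →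
  IsIntegral ℤ y → ∀ (A B T : ℕ) (κ : ℝ) (W : Finset (Pol ℚ)), 0 < κ → κ ≤ 1 / 2 →
  (W : Set (Pol ℚ)) ⊆ Wsp x y A B T → LinearIndependent ℚ (fun P : W => (P : Pol ℚ)) →
  (1 - κ) * (((A : ℝ) + 1) * (B + 1)) ≤ W.card →
  ∃ (P : Pol ℤ) (M : ℕ), P ≠ 0 ∧ Bd A B P ∧ VO T x y P ∧ 1 ≤ M ∧ (∀ m, |coeff m P| ≤ M) ∧
    Real.log M ≤ Lam κ A B T ((A * lam x + B * lam y) / finrank ℚ K)

/-- DIM1, DIM2: independent elements of the space `Wsp`. -/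
def S_DIM1 : Prop := ∀ (K : Type) [Field K] [NumberField K] (x y : K) (A B T : ℕ),
  ∃ W : Finset (Pol ℚ), (W : Set (Pol ℚ)) ⊆ Wsp x y A B T ∧
    LinearIndependent ℚ (fun P : W => (P : Pol ℚ)) ∧
    (A + 1) * (B + 1) ≤ W.card + finrank ℚ K * T ^ 2

def S_DIM2 : Prop := ∀ (K : Type) [Field K] [NumberField K] (x y : K) (A B T a b : ℕ)
  (F : Pol ℚ), F ≠ 0 → Bd a b F → ev x y F = 0 → T * a ≤ A + 1 → T * b ≤ B + 1 →
  ∃ W : Finset (Pol ℚ), (W : Set (Pol ℚ)) ⊆ Wsp x y A B T ∧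
    LinearIndependent ℚ (fun P : W => (P : Pol ℚ)) ∧
    (A + 1 - T * a) * (B + 1 - T * b) ≤ W.card

/-- BEZ: a bound for the number of common zeros. -/
def S_BEZ : Prop := ∀ (k Ω : Type) [Field k] [Field Ω] [Algebra k Ω] (f g : Pol k)
  (a₁ b₁ a₂ b₂ : ℕ), IsRelPrime f g → Bd a₁ b₁ f → Bd a₂ b₂ g → ∀ S : Finset (Ω × Ω),
  (∀ s ∈ S, ev s.1 s.2 f = 0 ∧ ev s.1 s.2 g = 0) → S.card ≤ a₁ * b₂ + a₂ * b₁

/-- GAL: the irreducible factors over `Qb` of an irreducible rational polynomial are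
conjugate. -/
def S_GAL : Prop := ∀ (F : Pol ℚ) (f g : Pol Qb), Irreducible F → Irreducible f →
  Irreducible g → f ∣ up F → g ∣ up F → ∃ τ : Qb ≃ₐ[ℚ] Qb, Associated (gal τ f) g

/-- TLA: polynomials with many symmetries of prime order. -/
def S_TLA : Prop := ∀ (f : Pol Qb) (a b : ℕ) (I : Finset ℕ), f ≠ 0 → Bd a b f →
  (∀ i ∈ I, i.Prime ∧ ∃ ζ : Fin 2 → Qb, ζ ^ i = 1 ∧ ζ ≠ 1 ∧ Associated (tr ζ f) f) →
  Col f ∨ 2 ^ I.card ≤ 2 * a * b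

/-- TLB: polynomials with many translates that are conjugates. -/
def S_TLB : Prop := ∀ (F : Pol ℚ) (f : Pol Qb) (a b : ℕ) (I : Finset ℕ), F ≠ 0 → Bd a b F →
  Irreducible f → f ∣ up F →
  (∀ i ∈ I, i.Prime ∧ (∃ ζ : Fin 2 → Qb, ζ ^ i = 1 ∧ ζ ≠ 1 ∧
      ∃ τ : Qb ≃ₐ[ℚ] Qb, Associated (tr ζ f) (gal τ f)) ∧
    ∀ ζ : Fin 2 → Qb, ζ ^ i = 1 → Associated (tr ζ f) f → ζ = 1) → 2 ^ I.card ≤ a + b

/-- COLF: if a factor over `Qb` has its support on a line then so has the polynomial. -/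
def S_COLF : Prop := ∀ (F : Pol ℚ) (f : Pol Qb), Irreducible F → Irreducible f → f ∣ up F →
  Col f → Col F

/-- TLP: if the translates by the group of points of order `i` are pairwise coprime. -/
def S_TLP : Prop := ∀ (F P : Pol ℚ) (i A B : ℕ), i.Prime → F ≠ 0 → P ≠ 0 → Bd A B P →
  F ∣ expand i P →
  (∀ ζ ξ : Fin 2 → Qb, ζ ^ i = 1 → ξ ^ i = 1 → ζ ≠ ξ → IsRelPrime (tr ζ (up F)) (tr ξ (up F))) →
  i * F.degreeOf 0 ≤ A ∧ i * F.degreeOf 1 ≤ B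

/-- TL: the translation lemma. -/
def S_TL : Prop := ∀ (F P : Pol ℚ) (I : Finset ℕ) (A B : ℕ), Irreducible F → ¬ Col F →
  2 * F.degreeOf 0 * F.degreeOf 1 * (F.degreeOf 0 + F.degreeOf 1) < 2 ^ I.card →
  P ≠ 0 → Bd A B P → (∀ i ∈ I, i.Prime ∧ F ∣ expand i P) →
  ∃ i ∈ I, i * F.degreeOf 0 ≤ A ∧ i * F.degreeOf 1 ≤ B

/-- COL: zeros of a polynomial with support on a line. -/
def S_COL : Prop := ∀ (K : Type) [Field K] [NumberField K] (F : Pol ℚ) (a b : ℕ) (x y : K),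
  F ≠ 0 → Col F → Bd a b F → x ≠ 0 → y ≠ 0 → ev x y F = 0 →
  ∃ (r s : ℤ) (e : ℕ) (g : Polynomial ℚ), (r, s) ≠ (0, 0) ∧ 1 ≤ e ∧ g ≠ 0 ∧ g.natDegree ≤ e ∧
    Polynomial.aeval (x ^ r * y ^ s) g = 0 ∧ e * r.natAbs ≤ a ∧ e * s.natAbs ≤ b

/-- END: such points have large height (Dobrowolski). -/
def S_END : Prop := ∃ c : ℝ, 0 < c ∧ ∀ (K : Type) [Field K] [NumberField K] (F : Pol ℚ)
  (a b : ℕ) (x y : K), F ≠ 0 → Col F → Bd a b F → Unt x → Unt y → Ind x y → ev x y F = 0 →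
  c / Real.log (2 * (a + b)) ^ 3 ≤ (a * lam x + b * lam y) / finrank ℚ K

/-- BAD: few primes are bad. -/
def S_BAD : Prop := ∀ (K : Type) [Field K] [NumberField K] (x y : K), x ≠ 0 → y ≠ 0 → Gen x y →
  ∀ S : Finset ℕ, (∀ p ∈ S, p.Prime ∧ ¬ Gen (x ^ p) (y ^ p)) → 2 ^ S.card ≤ finrank ℚ K

/-- DIS: different powers are not conjugate. -/
def S_DIS : Prop := ∀ (K : Type) [Field K] [NumberField K] (x : K), Unt x →
  (∀ n : ℕ, 0 < n → x ^ n ≠ 1) → ∀ (σ τ : K →ₐ[ℚ] Qb) (m n : ℕ), 0 < m → 0 < n →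
  σ (x ^ m) = τ (x ^ n) → m = n

/-- SEL: the choice of a component. -/
def S_SEL : Prop := ∀ (K : Type) [Field K] [NumberField K] (x y : K) (P : Pol ℚ) (A B : ℕ)
  (J : Finset ℕ), P ≠ 0 → Bd A B P → J.Nonempty → (∀ p ∈ J, ev (x ^ p) (y ^ p) P = 0) →
  ∃ (F : Pol ℚ) (J' : Finset ℕ), Irreducible F ∧ F ∣ P ∧ J' ⊆ J ∧ J'.Nonempty ∧
    (∀ p ∈ J', ev (x ^ p) (y ^ p) F = 0) ∧
    J.card * (F.degreeOf 0 + F.degreeOf 1) ≤ J'.card * (A + B)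

/-- PR: many primes. -/
def S_PR : Prop := ∃ n₀ : ℕ, ∀ n : ℕ, n₀ ≤ n →
  n ≤ ((Finset.Ioc n (4 * n)).filter Nat.Prime).card ^ 2

/-- ST1: the first stage, with explicit parameters. -/
def S_ST1 : Prop := ∀ (K : Type) [Field K] [NumberField K] (x y : K) (T t L : ℕ) (κ : ℝ)
  (I J : Finset ℕ), Unt x → Unt y → Ind x y → Gen x y → 0 < κ → κ ≤ 1 / 2 →
  2 ≤ t → t ≤ T → 1 ≤ L → J.Nonempty → (∀ i ∈ I, i.Prime) → (∀ p ∈ J, p.Prime) →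
  (∀ p ∈ J, Gen (x ^ p) (y ^ p)) →
  (finrank ℚ K : ℝ) * T ^ 2 ≤ κ * ((L : ℝ) + 1) ^ 2 →
  (∀ i ∈ I, Lam κ L L T (L * (lam x + lam y) / finrank ℚ K) + Real.log (((L : ℝ) + 1) ^ 2)
    + t * Real.log (2 * L + 1) + i * L * (lam x + lam y) / finrank ℚ K
      < ((T : ℝ) - t) * Real.log i) →
  (∀ i ∈ I, ∀ p ∈ J, Lam κ L L T (L * (lam x + lam y) / finrank ℚ K)
    + Real.log (((L : ℝ) + 1) ^ 2)
    + Real.log (2 * L + 1) + p * i * L * (lam x + lam y) / finrank ℚ K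
      < ((t : ℝ) - 1) * Real.log p) →
  (∀ i ∈ I, 2 * i * L ^ 2 < finrank ℚ K * J.card) →
  4 * L ^ 3 < 2 ^ I.card →
  (∀ p ∈ J, ∀ F : Pol ℚ, F ≠ 0 → Bd L L F → ev (x ^ p) (y ^ p) F = 0 → ¬ Col F) →
  ∃ p ∈ J, ∃ F : Pol ℚ, Irreducible F ∧ ¬ Col F ∧ ev (x ^ p) (y ^ p) F = 0 ∧
    ∃ i ∈ I, i * F.degreeOf 0 ≤ L ∧ i * F.degreeOf 1 ≤ L

/-- ST2: the second stage, with explicit parameters. -/
def S_ST2 : Prop := ∀ (K : Type) [Field K] [NumberField K] (x y : K) (F : Pol ℚ) (T A B : ℕ)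
  (κ : ℝ) (I : Finset ℕ), Unt x → Unt y → Gen x y → Irreducible F → ¬ Col F → ev x y F = 0 →
  0 < κ → κ ≤ 1 / 2 → 2 ≤ T → (∀ i ∈ I, i.Prime) →
  (T : ℝ) * F.degreeOf 0 * (B + 1) + T * F.degreeOf 1 * (A + 1) ≤
    κ * (((A : ℝ) + 1) * (B + 1)) →
  (∀ i ∈ I, Lam κ A B T ((A * lam x + B * lam y) / finrank ℚ K)
    + Real.log (((A : ℝ) + 1) * (B + 1)) + Real.log (A + B + 1)
    + i * (A * lam x + B * lam y) / finrank ℚ K < ((T : ℝ) - 1) * Real.log i) →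
  (∀ i ∈ I, i * (F.degreeOf 0 * B + F.degreeOf 1 * A) < finrank ℚ K) →
  2 * F.degreeOf 0 * F.degreeOf 1 * (F.degreeOf 0 + F.degreeOf 1) < 2 ^ I.card →
  (∀ i ∈ I, ¬ (i * F.degreeOf 0 ≤ A ∧ i * F.degreeOf 1 ≤ B)) → False

/-- AD: the rank two Lehmer bound. -/
def S_AD : Prop := ∀ ε : ℝ, 0 < ε → ∃ c : ℝ, 0 < c ∧ ∀ (K : Type) [Field K] [NumberField K]
  (x y : K), Unt x → Unt y → Ind x y →
  c * (finrank ℚ K : ℝ) ^ (1 / 2 - ε) ≤ max (lam x) (lam y)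

end Pool.Agent.N236.RT
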