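import Pool.Agent.N236.RT.AD
import Pool.Agent.N236.RT.Fin3
import Pool.Agent.N394.RT.TAY
import Pool.Agent.N663.RT.MONO
import Pool.Agent.N129.RT.LOC
import Pool.Agent.N130.RT.EXT
import Pool.Agent.N755.RT.EX
import Pool.Agent.N297.RT.AuxP
import Pool.Agent.N595.RT.BEZ
import Pool.Agent.N835.RT.Gal
import Pool.Agent.N864.RT.Tl
import Pool.Agent.N864.RT.Tlb
import Pool.Agent.N84.RT.TLP
import Pool.Agent.N92.RT.TL
import Pool.Agent.N92.RT.BAD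
import Pool.Agent.N546.RT.COL
import Pool.Agent.N713.RT.End
import Pool.Agent.N364.RT.SEL
import Pool.Agent.N747.RT.PR
import Pool.Agent.N678.RT.ST1
import Pool.Agent.N755.RT.ST2
import Pool.Agent.N701.RT.Imp
import Pool.Agent.N459.RT.PAIR
import Pool.Agent.N327.RT.RS
import Pool.Agent.N539.RT.Dim
import Pool.Agent.N42.RT.Div
import Pool.Agent.N106.RT.PAR

/-!
# Project RT: assembly
-/

set_option autoImplicit false

namespace Pool.Agent.N236.RT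

theorem s_tay1 : S_TAY1 := Pool.Agent.N394.RT.t_tay1
theorem s_tay2 : S_TAY2 := Pool.Agent.N394.RT.t_tay2
theorem s_tay3 : S_TAY3 := Pool.Agent.N394.RT.t_tay3
theorem s_tay4 : S_TAY4 := Pool.Agent.N394.RT.t_tay4
theorem s_tay5 : S_TAY5 := Pool.Agent.N394.RT.t_tay5
theorem s_loc : S_LOC := Pool.Agent.N129.RT.t_loc Pool.Agent.N663.RT.t_mono s_tay1 s_tay2
theorem s_ext : S_EXT := Pool.Agent.N130.RT.t_ext s_loc
theorem s_ex : S_EX := Pool.Agent.N755.RT.EX.t_ex s_ext s_tay2 s_tay4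
theorem s_aux : S_AUX := Pool.Agent.N297.RT.t_aux Pool.Agent.N327.RT.t_RS
theorem s_dim1 : S_DIM1 := Pool.Agent.N539.RT.t_dim1 s_tay5
theorem s_dim2 : S_DIM2 := Pool.Agent.N539.RT.t_dim2 s_tay3
theorem s_bez : S_BEZ := Pool.Agent.N595.RT.t_bez
theorem s_tl : S_TL := Pool.Agent.N92.RT.t_tl Pool.Agent.N835.RT.t_gal
  (Pool.Agent.N835.RT.t_colf Pool.Agent.N835.RT.t_gal) Pool.Agent.N864.RT.t_tla
  Pool.Agent.N864.RT.t_tlb Pool.Agent.N84.RT.t_tlp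
theorem s_st1 : S_ST1 := Pool.Agent.N678.RT.ST1.t_st1 s_ex s_aux s_dim1 s_bez s_tl
  Pool.Agent.N92.RT.t_dis Pool.Agent.N364.RT.t_sel
theorem s_st2 : S_ST2 := Pool.Agent.N755.RT.ST2.t_st2 s_ex s_aux s_dim2 s_bez s_tl

theorem s_ad : S_AD := ad_main s_st1 s_st2 Pool.Agent.N747.RT.PR.t_pr Pool.Agent.N92.RT.t_bad
  (Pool.Agent.N713.RT.t_end Pool.Agent.N546.RT.t_col) Pool.Agent.N106.RT.t_PAR

theorem s_pair : S_PAIR := Pool.Agent.N459.RT.t_pair s_ad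

end Pool.Agent.N236.RT
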