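import Pool.Agent.N236.RT.Stm

/-!
# Project RT: the choice of the parameters
-/

set_option autoImplicit false

namespace Pool.Agent.N236.RT

/-- PAR: the choice of the parameters (`N` is the degree, `X` the bound for `lam x`, `lam y`). -/
def S_PAR : Prop := ∀ (ε c : ℝ) (n₀ : ℕ), 0 < ε → ε < 1 / 2 → 0 < c → ∃ N₀ : ℕ, ∀ N : ℕ, N₀ ≤ N →
  ∀ X : ℝ, 0 ≤ X → X ≤ (N : ℝ) ^ (1 / 2 - ε) →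
  ∃ (Q T t L : ℕ) (κ : ℝ), 0 < κ ∧ κ ≤ 1 / 2 ∧ 2 ≤ t ∧ t ≤ T ∧ 1 ≤ L ∧ n₀ ≤ Q ∧ 1 ≤ Q ∧
    (N : ℝ) * T ^ 2 ≤ κ * ((L : ℝ) + 1) ^ 2 ∧
    (∀ i : ℕ, Q < i → i ≤ 4 * Q →
      Lam κ L L T (L * (2 * X) / N) + Real.log (((L : ℝ) + 1) ^ 2) + t * Real.log (2 * L + 1)
        + i * L * (2 * X) / N < ((T : ℝ) - t) * Real.log i) ∧
    (∀ i : ℕ, Q < i → i ≤ 4 * Q → ∀ p : ℕ, Q ^ 3 < p → p ≤ 4 * Q ^ 3 →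
      Lam κ L L T (L * (2 * X) / N) + Real.log (((L : ℝ) + 1) ^ 2) + Real.log (2 * L + 1)
        + p * i * L * (2 * X) / N < ((t : ℝ) - 1) * Real.log p) ∧
    (∀ j : ℕ, Q ^ 3 ≤ (j + Nat.log 2 N) ^ 2 → 1 ≤ j ∧ ∀ i : ℕ, i ≤ 4 * Q → 2 * i * L ^ 2 < N * j) ∧
    (∀ m : ℕ, Q ≤ m ^ 2 → 4 * L ^ 3 < 2 ^ m) ∧
    (∀ p : ℕ, p ≤ 4 * Q ^ 3 → 2 * L * p * X / N < c / Real.log (2 * (L + L)) ^ 3) ∧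
    ∀ a b : ℕ, 1 ≤ a → 1 ≤ b → (Q + 1) * a ≤ L → (Q + 1) * b ≤ L →
      ∃ A B : ℕ, (T : ℝ) * a * (B + 1) + T * b * (A + 1) ≤ κ * (((A : ℝ) + 1) * (B + 1)) ∧
        (∀ i : ℕ, Q < i → i ≤ 4 * Q → ∀ p : ℕ, Q ^ 3 < p → p ≤ 4 * Q ^ 3 →
          Lam κ A B T ((A + B) * (p * X) / N) + Real.log (((A : ℝ) + 1) * (B + 1))
            + Real.log (A + B + 1) + i * ((A + B) * (p * X)) / N < ((T : ℝ) - 1) * Real.log i) ∧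
        (∀ i : ℕ, i ≤ 4 * Q → i * (a * B + b * A) < N) ∧
        ∀ i : ℕ, Q < i → ¬ i * a ≤ A

end Pool.Agent.N236.RT
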